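import Pool.Agent.Lib.MP_33d9ce_co.Cst.T.Stm

/-! Piece avg. -/

set_option autoImplicit false

noncomputable section

open Classical Finset

namespace Pool.Agent.Lib.MP_33d9ce_co.Cst.T

theorem p_avg : S_avg := by
  intro 𝓟 Ω P f B W c1 c2 hc1 hc2 hB
  set S := W.filter fun v => c2 * P.card < ((P.filter fun p => f p = v ∧ B p).card : ℝ) * W.card with hS
  rcases Nat.eq_zero_or_pos P.card with h0 | hpos
  · have hP : P = ∅ := card_eq_zero.mp h0
    have hS0 : S = ∅ := by
      rw [hS, filter_eq_empty_iff]
      intro v _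
      subst hP
      simp
    rw [hS0, card_empty, Nat.cast_zero]
    positivity
  · have hP : (0 : ℝ) < P.card := by exact_mod_cast hpos
    have h1 : (∑ v ∈ S, (P.filter fun p => f p = v ∧ B p).card) ≤ (P.filter B).card := by
      rw [← card_biUnion]
      · apply card_le_card
        intro p hp
        rw [mem_biUnion] at hp
        obtain ⟨v, _, hv⟩ := hp
        rw [mem_filter] at hv ⊢
        exact ⟨hv.1, hv.2.2⟩
      · intro v _ v' _ hvv
        rw [Function.onFun, disjoint_left]
        intro p hp hp'
        rw [mem_filter] at hp hp'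
        exact hvv (hp.2.1.symm.trans hp'.2.1)
    have h1' : (∑ v ∈ S, ((P.filter fun p => f p = v ∧ B p).card : ℝ)) ≤ (P.filter B).card := by
      exact_mod_cast h1
    have h2 : (S.card : ℝ) * (c2 * P.card) ≤
        (∑ v ∈ S, ((P.filter fun p => f p = v ∧ B p).card : ℝ)) * W.card := by
      rw [sum_mul, ← nsmul_eq_mul, ← sum_const]
      apply sum_le_sum
      intro v hv
      rw [hS, mem_filter] at hv
      exact hv.2.le
    have h3 : (∑ v ∈ S, ((P.filter fun p => f p = v ∧ B p).card : ℝ)) * W.card ≤
        (c1 * c2 * P.card) * W.card :=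
      mul_le_mul_of_nonneg_right (h1'.trans hB) (by positivity)
    have h4 : (S.card : ℝ) * (c2 * P.card) ≤ (c1 * W.card) * (c2 * P.card) := by
      calc (S.card : ℝ) * (c2 * P.card) ≤ _ := h2.trans h3
        _ = (c1 * W.card) * (c2 * P.card) := by ring
    exact le_of_mul_le_mul_right h4 (by positivity)

end Pool.Agent.Lib.MP_33d9ce_co.Cst.T
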