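import Pool.Agent.Lib.MP_33d9ce_co.Cst.T.Stm

set_option autoImplicit false

noncomputable section

open Classical Finset

namespace Pool.Agent.Lib.MP_33d9ce_co.Cst.T

theorem p_beta (h1 : S_blk) (h2 : S_loo) : S_beta := by
  intro X Ω a b F E _ _ _ _ θ ok hF R bF bE l j1 j2 hj hl t ht
  have hw : ∀ D : E → Ω, 0 ≤ wt ok R bF bE D := fun D =>
    Finset.prod_nonneg fun s _ => Nat.cast_nonneg _
  have hS : 0 ≤ ∑ D : E → Ω, wt ok R bF bE D := Finset.sum_nonneg fun D _ => hw D
  have hθ0 := hF.nonneg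
  have hθ1 := hF.small
  have hc0 : 0 < 1 - 4 * θ := by linarith
  have hc1 : 1 - 4 * θ ≤ 1 := by linarith
  have hA := h1 X Ω a b F E θ ok hF R bF bE l j1 j2 hj
  set T : ℕ := ({s | bF s = l} : Finset F).card with hT
  set K : Finset E := ({e | R l (bE e)} : Finset E) with hK
  set S : ℝ := ∑ D : E → Ω, wt ok R bF bE D with hSdef
  -- the first part
  have hA' : ∑ D ∈ univ.filter (fun D : E → Ω => ((cn ok R bE D l).card : ℝ) <
      1 / 4 * (1 - 8 * θ) ^ K.card * Fintype.card X), wt ok R bF bE D ≤ (1 / 3) ^ T * S := by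
    have h3 : (0 : ℝ) < 3 ^ T := by positivity
    have h4 : ((1 : ℝ) / 3) ^ T * S = S / 3 ^ T := by
      rw [one_div, inv_pow]
      field_simp
    rw [h4, le_div_iff₀ h3, mul_comm]
    exact hA
  -- the second part
  have hB' : ∀ e0 ∈ K, ∑ D ∈ univ.filter (fun D : E → Ω =>
      2 * (cn ok R bE D l).card < (cnm ok R bE D e0 l).card), wt ok R bF bE D ≤
      2 * (1 / 2) ^ T / (1 - 4 * θ) ^ t * S := by
    intro e0 he0
    have hR : R l (bE e0) := by simpa [hK] using he0
    obtain ⟨l1, l2, hl12⟩ := hl _ hR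
    have hB := h2 X Ω a b F E θ ok hF R bF bE l e0 hR l1 l2 hl12
    have hu := ht e0 hR
    rw [← hT] at hB
    have hp2 : (0 : ℝ) < 2 ^ T := by positivity
    have hpt : 0 < (1 - 4 * θ) ^ t := pow_pos hc0 t
    have hle : (1 - 4 * θ) ^ t ≤ (1 - 4 * θ) ^ ({s | R (bF s) (bE e0)} : Finset F).card :=
      pow_le_pow_of_le_one hc0.le hc1 hu
    have hs0 : 0 ≤ ∑ D ∈ univ.filter (fun D : E → Ω =>
        2 * (cn ok R bE D l).card < (cnm ok R bE D e0 l).card), wt ok R bF bE D :=
      Finset.sum_nonneg fun D _ => hw D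
    have h5 : 2 ^ T * (1 - 4 * θ) ^ t * ∑ D ∈ univ.filter (fun D : E → Ω =>
        2 * (cn ok R bE D l).card < (cnm ok R bE D e0 l).card), wt ok R bF bE D ≤ 2 * S :=
      le_trans (mul_le_mul_of_nonneg_right (mul_le_mul_of_nonneg_left hle hp2.le) hs0) hB
    have h6 : 2 * (1 / 2) ^ T / (1 - 4 * θ) ^ t * S = 2 * S / (2 ^ T * (1 - 4 * θ) ^ t) := by
      rw [one_div, inv_pow]
      field_simp
    rw [h6, le_div_iff₀ (mul_pos hp2 hpt), mul_comm]
    exact h5
  -- the union
  have hU : ∑ D ∈ univ.filter (fun D : E → Ω => BadD ok R bE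
      (1 / 4 * (1 - 8 * θ) ^ K.card) l D), wt ok R bF bE D ≤
      ∑ D ∈ univ.filter (fun D : E → Ω => ((cn ok R bE D l).card : ℝ) <
        1 / 4 * (1 - 8 * θ) ^ K.card * Fintype.card X), wt ok R bF bE D +
      ∑ e0 ∈ K, ∑ D ∈ univ.filter (fun D : E → Ω =>
        2 * (cn ok R bE D l).card < (cnm ok R bE D e0 l).card), wt ok R bF bE D := by
    simp only [Finset.sum_filter]
    rw [Finset.sum_comm, ← Finset.sum_add_distrib]
    refine Finset.sum_le_sum fun D _ => ?_
    have hnn : ∀ e0 ∈ K, 0 ≤ (if 2 * (cn ok R bE D l).card < (cnm ok R bE D e0 l).card then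
        wt ok R bF bE D else 0) := fun e0 _ => by
      split_ifs
      · exact hw D
      · exact le_rfl
    by_cases hbad : BadD ok R bE (1 / 4 * (1 - 8 * θ) ^ K.card) l D
    · rw [if_pos hbad]
      rcases hbad with hb | ⟨e, hRe, hb⟩
      · rw [if_pos hb]
        exact le_add_of_nonneg_right (Finset.sum_nonneg hnn)
      · have he : e ∈ K := by simp [hK, hRe]
        have h7 := Finset.single_le_sum hnn he
        rw [if_pos hb] at h7
        refine le_trans h7 (le_add_of_nonneg_left ?_)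
        split_ifs
        · exact hw D
        · exact le_rfl
    · rw [if_neg hbad]
      refine add_nonneg ?_ (Finset.sum_nonneg hnn)
      split_ifs
      · exact hw D
      · exact le_rfl
  refine hU.trans ?_
  have hsum := Finset.sum_le_sum hB'
  rw [Finset.sum_const, nsmul_eq_mul] at hsum
  calc _ ≤ (1 / 3) ^ T * S + (K.card : ℝ) * (2 * (1 / 2) ^ T / (1 - 4 * θ) ^ t * S) :=
        add_le_add hA' hsum
    _ = ((1 / 3) ^ T + K.card * (2 * (1 / 2) ^ T / (1 - 4 * θ) ^ t)) * S := by ring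

end Pool.Agent.Lib.MP_33d9ce_co.Cst.T
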