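import Pool.Agent.Lib.MP_33d9ce_co.Cst.T.Stm

/-!
# Spanning hypercubes, constant density, part T: the weight of one block
-/

set_option autoImplicit false

noncomputable section

open Classical Finset

namespace Pool.Agent.Lib.MP_33d9ce_co.Cst.T

private theorem blk_split {X Ω a b F E : Type} [Fintype X] [Fintype F] (ok : X → Ω → Prop)
    (R : a → b → Prop) (bF : F → a) (bE : E → b) (l : a) (D : E → Ω) :
    wt ok R bF bE D = ((cn ok R bE D l).card : ℝ) ^ ({s | bF s = l} : Finset F).card *
      wt ok R (fun s : {s : F // ¬ bF s = l} => bF s.1) bE D := by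
  unfold wt
  rw [← Fintype.prod_subtype_mul_prod_subtype (fun s : F => bF s = l)]
  congr 1
  · have h : ∀ s : {s : F // bF s = l}, ((cn ok R bE D (bF s.1)).card : ℝ) = ((cn ok R bE D l).card : ℝ) := by
      intro s
      rw [s.2]
    rw [Finset.prod_congr rfl (fun s _ => h s), Finset.prod_const, Finset.card_univ, Fintype.card_subtype]

theorem p_blk (h1 : S_dual) (h2 : S_ratio) : S_blk := by
  intro X Ω a b F E _ _ _ _ θ ok hf R bF bE l j1 j2 hj
  rw [Finset.sum_filter]
  have e1 : ∀ D : E → Ω, (if ((cn ok R bE D l).card : ℝ) <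
      1 / 4 * (1 - 8 * θ) ^ ({e | R l (bE e)} : Finset E).card * Fintype.card X then wt ok R bF bE D else 0) =
      (if ((cn ok R bE D l).card : ℝ) <
        1 / 4 * (1 - 8 * θ) ^ ({e | R l (bE e)} : Finset E).card * Fintype.card X then
        ((cn ok R bE D l).card : ℝ) ^ ({s | bF s = l} : Finset F).card else 0) *
        wt ok R (fun s : {s : F // ¬ bF s = l} => bF s.1) bE D := by
    intro D
    split_ifs
    · exact blk_split ok R bF bE l D
    · simp
  rw [Finset.sum_congr rfl (fun D _ => e1 D), Finset.sum_congr rfl (fun D _ => blk_split ok R bF bE l D)]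
  rw [h1 X Ω a b {s : F // ¬ bF s = l} E ok R (fun s => bF s.1) bE
    (fun D => if ((cn ok R bE D l).card : ℝ) <
        1 / 4 * (1 - 8 * θ) ^ ({e | R l (bE e)} : Finset E).card * Fintype.card X then
        ((cn ok R bE D l).card : ℝ) ^ ({s | bF s = l} : Finset F).card else 0)]
  rw [h1 X Ω a b {s : F // ¬ bF s = l} E ok R (fun s => bF s.1) bE
    (fun D => ((cn ok R bE D l).card : ℝ) ^ ({s | bF s = l} : Finset F).card)]
  rw [Finset.mul_sum]
  apply Finset.sum_le_sum
  intro T _
  have h := h2 X Ω a b E θ ok hf R bE l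
    (fun e => lab ok R (fun s : {s : F // ¬ bF s = l} => bF s.1) T (bE e))
    (lab ok R (fun s : {s : F // ¬ bF s = l} => bF s.1) T j1)
    (lab ok R (fun s : {s : F // ¬ bF s = l} => bF s.1) T j2)
    (by
      intro e he
      rcases hj _ he with h | h
      · left
        simp only [h]
      · right
        simp only [h])
    ({s | bF s = l} : Finset F).card
  rw [Finset.sum_filter] at h
  exact h

end Pool.Agent.Lib.MP_33d9ce_co.Cst.T
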