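import Pool.Agent.Lib.MP_33d9ce_co.Cst.T.Stm

/-!
# Spanning hypercubes, constant density, part T: piece cfg
-/

set_option autoImplicit false

noncomputable section

open Classical Finset

namespace Pool.Agent.Lib.MP_33d9ce_co.Cst

namespace T

namespace cfg

variable {X Ω E F : Type}

private theorem card_S [Fintype Ω] [Fintype E] (ok : X → Ω → Prop) (bE : E → ℕ) (bF : F → ℕ) (T : F → X) :
    ((Fintype.piFinset fun e => lab ok Rc bF T (bE e)).card : ℝ) = wtl ok Rc bF bE T := by
  rw [Fintype.card_piFinset]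
  push_cast
  rfl

private theorem blkF_le [Fintype F] {L : ℕ} {bF : F → ℕ}
    (hF : ∀ j, 2 ≤ j → j ≤ L → ({s | bF s = j} : Finset F).card = 100 * kap (j + 1))
    (hb : ∀ s, 2 ≤ bF s ∧ bF s ≤ L) (j : ℕ) : ({s | bF s = j} : Finset F).card ≤ 100 * kap (j + 1) := by
  by_cases h : 2 ≤ j ∧ j ≤ L
  · exact (hF j h.1 h.2).le
  · have : ({s | bF s = j} : Finset F) = ∅ := by
      rw [Finset.filter_eq_empty_iff]
      intro s _ hs
      apply h
      rw [← hs]
      exact hb s
    rw [this]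
    simp

private theorem rel_le [Fintype F] {L : ℕ} {bF : F → ℕ}
    (hF : ∀ j, 2 ≤ j → j ≤ L → ({s | bF s = j} : Finset F).card = 100 * kap (j + 1))
    (hb : ∀ s, 2 ≤ bF s ∧ bF s ≤ L) (j : ℕ) :
    ({s | Rc (bF s) j} : Finset F).card ≤ 100 * kap (j + 1) + 100 * kap (j + 2) := by
  have h1 : ({s | Rc (bF s) j} : Finset F) ⊆ ({s | bF s = j} : Finset F) ∪ ({s | bF s = j + 1} : Finset F) := by
    intro s hs
    rw [Finset.mem_filter] at hs
    rw [Finset.mem_union, Finset.mem_filter, Finset.mem_filter]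
    rcases hs.2 with h | h
    · exact Or.inl ⟨mem_univ _, h.symm⟩
    · exact Or.inr ⟨mem_univ _, h.symm⟩
  calc ({s | Rc (bF s) j} : Finset F).card ≤
        (({s | bF s = j} : Finset F) ∪ ({s | bF s = j + 1} : Finset F)).card := card_le_card h1
    _ ≤ ({s | bF s = j} : Finset F).card + ({s | bF s = j + 1} : Finset F).card := card_union_le _ _
    _ ≤ 100 * kap (j + 1) + 100 * kap (j + 2) := Nat.add_le_add (blkF_le hF hb j) (blkF_le hF hb (j + 1))

private theorem relE [Fintype E] {L : ℕ} {bE : E → ℕ}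
    (hE : ∀ j, 1 ≤ j → j ≤ L → ({e | bE e = j} : Finset E).card = kap (j + 1)) {l : ℕ} (hl : 2 ≤ l) (hL : l ≤ L) :
    ({e | Rc l (bE e)} : Finset E).card = kap l + kap (l + 1) := by
  have h1 : ({e | Rc l (bE e)} : Finset E) = ({e | bE e = l - 1} : Finset E) ∪ ({e | bE e = l} : Finset E) := by
    ext e
    rw [Finset.mem_filter, Finset.mem_union, Finset.mem_filter, Finset.mem_filter]
    constructor
    · rintro ⟨_, h | h⟩
      · exact Or.inr ⟨mem_univ _, h⟩
      · exact Or.inl ⟨mem_univ _, by omega⟩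
    · rintro (⟨_, h⟩ | ⟨_, h⟩)
      · exact ⟨mem_univ _, Or.inr (by omega)⟩
      · exact ⟨mem_univ _, Or.inl h⟩
  have h2 : Disjoint ({e | bE e = l - 1} : Finset E) ({e | bE e = l} : Finset E) := by
    rw [Finset.disjoint_left]
    intro e he he'
    rw [Finset.mem_filter] at he he'
    have := he.2
    have := he'.2
    omega
  rw [h1, card_union_of_disjoint h2, hE (l - 1) (by omega) (by omega), hE l (by omega) hL]
  have h3 : l - 1 + 1 = l := by omega
  rw [h3]

private theorem cf {A : Type} [Fintype A] {p : A → Prop} {n : ℕ} (i1 i2 : DecidablePred p)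
    (h : (@Finset.filter A p i1 univ).card = n) : (@Finset.filter A p i2 univ).card = n := by
  have e : i1 = i2 := Subsingleton.elim _ _
  rw [← e]
  exact h

private theorem kap_mono2 (l : ℕ) : kap l ≤ kap (l + 2) := by
  cases l with
  | zero =>
    have h : kap 2 = 10 ^ 7 * 2500 ^ 1 := rfl
    have h0 : kap 0 = 10 ^ 7 := rfl
    show kap 0 ≤ kap 2
    rw [h, h0]
    norm_num
  | succ n =>
    rw [kap_succ n]
    have h : kap (n + 1 + 2) = 10 ^ 7 * 2500 ^ (n + 2) := rfl
    rw [h]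
    exact Nat.mul_le_mul_left _ (Nat.pow_le_pow_right (by norm_num) (by omega))

end cfg

open cfg in
theorem p_cfg (h1 : S_dual) (h2 : S_blk) (h3 : S_beta) (h4 : S_pos) (h5 : S_sel) (h6 : S_n1) (h7 : S_n2) : S_cfg := by
  intro X Ω E F _ _ _ _ _ _ θ ok L hθ hθ' bE bF hE hF hb
  -- the total weight
  have hZ : ∑ T : F → X, ((Fintype.piFinset fun e => lab ok Rc bF T (bE e)).card : ℝ) =
      ∑ D : E → Ω, wt ok Rc bF bE D := by
    have h := h1 X Ω ℕ ℕ F E ok Rc bF bE (fun _ => 1)
    simp only [one_mul, sum_const, nsmul_eq_mul, mul_one] at h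
    exact h.symm
  have hZ' : ∑ T : F → X, ((Fintype.piFinset fun e => lab ok Rc bF T (bE e)).card : ℝ) =
      ∑ T : F → X, wtl ok Rc bF bE T := sum_congr rfl fun T _ => card_S ok bE bF T
  have hZpos : 0 < ∑ T : F → X, ((Fintype.piFinset fun e => lab ok Rc bF T (bE e)).card : ℝ) := by
    rw [hZ]
    exact h4 X Ω ℕ ℕ F E θ ok hθ Rc bF bE
  -- the conditions A
  have hA : ∀ j ∈ Icc 1 L, ∑ T ∈ univ.filter (fun T : F → X => ((lab ok Rc bF T j).card : ℝ) <
        1 / 4 * (1 - 8 * θ) ^ ({s | Rc (bF s) j} : Finset F).card * Fintype.card Ω),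
        ((Fintype.piFinset fun e => lab ok Rc bF T (bE e)).card : ℝ) ≤
      (1 / 3) ^ kap (j + 1) * ∑ T : F → X, ((Fintype.piFinset fun e => lab ok Rc bF T (bE e)).card : ℝ) := by
    intro j hj
    rw [mem_Icc] at hj
    have h := h2 Ω X ℕ ℕ E F θ (fun w x => ok x w) hθ.flip (fun j l => Rc l j) bE bF j j (j + 1)
      (by
        intro j' h
        rcases h with h | h
        · exact Or.inl h.symm
        · exact Or.inr h.symm)
    rw [cf _ _ (hE j hj.1 hj.2)] at h
    rw [hZ']
    have h' : ∑ T ∈ univ.filter (fun T : F → X => ((lab ok Rc bF T j).card : ℝ) <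
        1 / 4 * (1 - 8 * θ) ^ ({s | Rc (bF s) j} : Finset F).card * Fintype.card Ω),
        ((Fintype.piFinset fun e => lab ok Rc bF T (bE e)).card : ℝ) =
        ∑ T ∈ univ.filter (fun T : F → X => ((lab ok Rc bF T j).card : ℝ) <
        1 / 4 * (1 - 8 * θ) ^ ({s | Rc (bF s) j} : Finset F).card * Fintype.card Ω), wtl ok Rc bF bE T :=
      sum_congr rfl fun T _ => card_S ok bE bF T
    rw [h']
    have e3 : ((1 : ℝ) / 3) ^ kap (j + 1) * ∑ T : F → X, wtl ok Rc bF bE T =
        (∑ T : F → X, wtl ok Rc bF bE T) / 3 ^ kap (j + 1) := by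
      rw [div_pow, one_pow, one_div, mul_comm, ← div_eq_mul_inv]
    rw [e3, le_div_iff₀ (by positivity), mul_comm]
    exact h
  -- the conditions B
  have hB : ∀ l ∈ Icc 2 L, ∑ T : F → X, ((((Fintype.piFinset fun e => lab ok Rc bF T (bE e)).filter fun D =>
        BadD ok Rc bE (1 / 4 * (1 - 8 * θ) ^ (kap l + kap (l + 1))) l D).card : ℕ) : ℝ) ≤
      (1 / 2) ^ (50 * kap (l + 1)) *
        ∑ T : F → X, ((Fintype.piFinset fun e => lab ok Rc bF T (bE e)).card : ℝ) := by
    intro l hl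
    rw [mem_Icc] at hl
    have h := h1 X Ω ℕ ℕ F E ok Rc bF bE
      (fun D => if BadD ok Rc bE (1 / 4 * (1 - 8 * θ) ^ (kap l + kap (l + 1))) l D then 1 else 0)
    have hl1 : ∑ T : F → X, ((((Fintype.piFinset fun e => lab ok Rc bF T (bE e)).filter fun D =>
        BadD ok Rc bE (1 / 4 * (1 - 8 * θ) ^ (kap l + kap (l + 1))) l D).card : ℕ) : ℝ) =
        ∑ T : F → X, ∑ D ∈ Fintype.piFinset (fun e => lab ok Rc bF T (bE e)),
          (if BadD ok Rc bE (1 / 4 * (1 - 8 * θ) ^ (kap l + kap (l + 1))) l D then (1 : ℝ) else 0) := by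
      refine sum_congr rfl fun T _ => ?_
      rw [Finset.card_filter]
      push_cast
      rfl
    have hl2 : ∑ D : E → Ω, (if BadD ok Rc bE (1 / 4 * (1 - 8 * θ) ^ (kap l + kap (l + 1))) l D then (1 : ℝ) else 0) *
        wt ok Rc bF bE D = ∑ D ∈ univ.filter (fun D : E → Ω => BadD ok Rc bE
          (1 / 4 * (1 - 8 * θ) ^ (kap l + kap (l + 1))) l D), wt ok Rc bF bE D := by
      rw [Finset.sum_filter]
      refine sum_congr rfl fun D _ => ?_
      by_cases hD : BadD ok Rc bE (1 / 4 * (1 - 8 * θ) ^ (kap l + kap (l + 1))) l D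
      · rw [if_pos hD, if_pos hD, one_mul]
      · rw [if_neg hD, if_neg hD, zero_mul]
    rw [hl1, ← h, hl2, hZ]
    have hb' := h3 X Ω ℕ ℕ F E θ ok hθ Rc bF bE l l (l - 1)
      (by
        intro j h
        rcases h with h | h
        · exact Or.inl h
        · exact Or.inr (by omega))
      (by
        intro j _
        refine ⟨j, j + 1, fun l' h => ?_⟩
        rcases h with h | h
        · exact Or.inl h.symm
        · exact Or.inr h.symm)
      (100 * kap (l + 1) + 100 * kap (l + 2))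
      (by
        intro e he
        refine (rel_le hF hb (bE e)).trans ?_
        rcases he with he | he
        · rw [he]
        · have e1 : bE e + 1 = l := he
          have e2 : bE e + 2 = l + 1 := by omega
          rw [e1, e2]
          have := kap_mono2 l
          omega)
    rw [relE hE hl.1 hl.2, cf _ _ (hF l hl.1 hl.2)] at hb'
    refine hb'.trans ?_
    refine mul_le_mul_of_nonneg_right (h6 θ l hθ.nonneg hθ') ?_
    exact (h4 X Ω ℕ ℕ F E θ ok hθ Rc bF bE).le
  obtain ⟨T, hT1, hT2, hT3⟩ := h5 (E → Ω) (F → X) (fun T => Fintype.piFinset fun e => lab ok Rc bF T (bE e))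
    (Icc 1 L) (Icc 2 L)
    (fun j T => ((lab ok Rc bF T j).card : ℝ) <
        1 / 4 * (1 - 8 * θ) ^ ({s | Rc (bF s) j} : Finset F).card * Fintype.card Ω)
    (fun l D => BadD ok Rc bE (1 / 4 * (1 - 8 * θ) ^ (kap l + kap (l + 1))) l D)
    (fun l => (1 / 2) ^ (25 * kap (l + 1))) (fun l => (1 / 2) ^ (50 * kap (l + 1)))
    (fun j => (1 / 3) ^ kap (j + 1)) (fun i => by positivity) hZpos hA hB (h7 L)
  refine ⟨T, fun e => ?_, fun j hj1 hj2 => ?_, fun l hl1 hl2 => ?_⟩
  · rw [Fintype.piFinset_nonempty] at hT1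
    exact hT1 e
  · have h := hT2 j (mem_Icc.2 ⟨hj1, hj2⟩)
    rw [not_lt] at h
    refine le_trans ?_ h
    have hs := hθ.small
    have hn := hθ.nonneg
    refine mul_le_mul_of_nonneg_right ?_ (Nat.cast_nonneg _)
    refine mul_le_mul_of_nonneg_left ?_ (by norm_num)
    exact pow_le_pow_of_le_one (by linarith) (by linarith) (rel_le hF hb j)
  · exact hT3 l (mem_Icc.2 ⟨hl1, hl2⟩)

end T

end Pool.Agent.Lib.MP_33d9ce_co.Cst
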