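import Pool.Agent.Lib.MP_33d9ce_co.Cst.T.Stm

set_option autoImplicit false

noncomputable section

open Classical Finset

namespace Pool.Agent.Lib.MP_33d9ce_co.Cst.T

theorem p_dual : S_dual := by
  intro X Ω a b F E _ _ _ _ ok R bF bE G
  have h1 : ∀ D : E → Ω, wt ok R bF bE D =
      ∑ T : F → X, if D ∈ Fintype.piFinset (fun e => lab ok R bF T (bE e)) then (1 : ℝ) else 0 := by
    intro D
    have h2 : wt ok R bF bE D =
        ((Fintype.piFinset fun s => cn ok R bE D (bF s)).card : ℝ) := by
      unfold wt
      rw [Fintype.card_piFinset, Nat.cast_prod]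
    rw [h2, Finset.sum_boole]
    congr 2
    ext T
    simp only [Fintype.mem_piFinset, Finset.mem_filter, Finset.mem_univ, true_and, lab, cn]
    constructor
    · intro h e s hR
      exact h s e hR
    · intro h s e hR
      exact h e s hR
  simp only [h1, Finset.mul_sum]
  rw [Finset.sum_comm]
  apply Finset.sum_congr rfl
  intro T _
  simp only [mul_ite, mul_one, mul_zero]
  rw [Finset.sum_ite_mem, Finset.univ_inter]

end Pool.Agent.Lib.MP_33d9ce_co.Cst.T
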