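import Pool.Agent.Lib.MP_33d9ce_co.Cst.T.Stm

/-! Piece `dum` (dummies). -/

set_option autoImplicit false
noncomputable section
open Classical Finset

namespace Pool.Agent.Lib.MP_33d9ce_co.Cst.T

/-- extending `g` by `D` and then restricting along the injection gives `g` back -/
private theorem dum_ext {Ω E κ : Type} (φ : κ → E) (hφ : Function.Injective φ) (g : κ → Ω) (D : E → Ω) :
    (Function.extend φ g D) ∘ φ = g := by
  funext i
  simp only [Function.comp_apply]
  exact hφ.extend_apply g D i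

private theorem dum_ext2 {Ω E κ : Type} (φ : κ → E) (hφ : Function.Injective φ) (g : κ → Ω) (D : E → Ω) :
    Function.extend φ (D ∘ φ) (Function.extend φ g D) = D := by
  funext e
  by_cases h : ∃ i, φ i = e
  · obtain ⟨i, rfl⟩ := h
    rw [hφ.extend_apply]; rfl
  · rw [Function.extend_apply' _ _ _ h, Function.extend_apply' _ _ _ h]

private theorem dum_mem {Ω E κ : Type} [Fintype E] [Fintype κ] (Q : E → Finset Ω) (φ : κ → E)
    (hφ : Function.Injective φ) (g : κ → Ω) (D : E → Ω)
    (hg : g ∈ Fintype.piFinset fun i => Q (φ i)) (hD : D ∈ Fintype.piFinset Q) :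
    Function.extend φ g D ∈ Fintype.piFinset Q := by
  rw [Fintype.mem_piFinset] at *
  intro e
  by_cases h : ∃ i, φ i = e
  · obtain ⟨i, rfl⟩ := h
    rw [hφ.extend_apply]; exact hg i
  · rw [Function.extend_apply' _ _ _ h]; exact hD e

private theorem dum_comp {Ω E κ : Type} [Fintype E] [Fintype κ] (Q : E → Finset Ω) (φ : κ → E)
    (D : E → Ω) (hD : D ∈ Fintype.piFinset Q) : D ∘ φ ∈ Fintype.piFinset fun i => Q (φ i) := by
  rw [Fintype.mem_piFinset] at *
  intro i
  exact hD (φ i)

/-- the double counting identity -/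
private theorem dum_count {Ω E κ : Type} [Fintype Ω] [Fintype E] [Fintype κ] (Q : E → Finset Ω)
    (P : (E → Ω) → Prop) (φ : κ → E) (hφ : Function.Injective φ) :
    ∑ D ∈ Fintype.piFinset Q, ((Fintype.piFinset (fun i => Q (φ i))).filter
      fun g => P (Function.extend φ g D)).card =
    (Fintype.piFinset (fun i => Q (φ i))).card * ((Fintype.piFinset Q).filter P).card := by
  have h1 : ∑ D ∈ Fintype.piFinset Q, ((Fintype.piFinset (fun i => Q (φ i))).filter
      fun g => P (Function.extend φ g D)).card =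
      (((Fintype.piFinset Q) ×ˢ (Fintype.piFinset (fun i => Q (φ i)))).filter
        fun p => P (Function.extend φ p.2 p.1)).card := by
    rw [Finset.card_filter, Finset.sum_product]
    refine Finset.sum_congr rfl fun D _ => ?_
    rw [Finset.card_filter]
  rw [h1, mul_comm, ← Finset.card_product]
  refine Finset.card_bij' (fun p _ => (Function.extend φ p.2 p.1, p.1 ∘ φ))
    (fun p _ => (Function.extend φ p.2 p.1, p.1 ∘ φ)) ?_ ?_ ?_ ?_
  · intro p hp
    rw [Finset.mem_filter, Finset.mem_product] at hp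
    rw [Finset.mem_product, Finset.mem_filter]
    exact ⟨⟨dum_mem Q φ hφ _ _ hp.1.2 hp.1.1, hp.2⟩, dum_comp Q φ _ hp.1.1⟩
  · intro p hp
    rw [Finset.mem_product, Finset.mem_filter] at hp
    rw [Finset.mem_filter, Finset.mem_product]
    refine ⟨⟨dum_mem Q φ hφ _ _ hp.2 hp.1.1, dum_comp Q φ _ hp.1.1⟩, ?_⟩
    have : Function.extend φ (p.1 ∘ φ) (Function.extend φ p.2 p.1) = p.1 := dum_ext2 φ hφ _ _
    simp only [this]
    exact hp.1.2
  · intro p _
    ext1
    · exact dum_ext2 φ hφ _ _
    · exact dum_ext φ hφ _ _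
  · intro p _
    ext1
    · exact dum_ext2 φ hφ _ _
    · exact dum_ext φ hφ _ _

theorem p_dum : S_dum := by
  intro Ω E κ _ _ _ Q hQ P c hP φ hφ
  have hne : (Fintype.piFinset Q).Nonempty := by
    rw [Fintype.piFinset_nonempty]; exact hQ
  have hc := dum_count Q P φ hφ
  have hle : ∑ D ∈ Fintype.piFinset Q, (((Fintype.piFinset (fun i => Q (φ i))).filter
      fun g => P (Function.extend φ g D)).card : ℝ) ≤
      ∑ _D ∈ Fintype.piFinset Q, c * ((Fintype.piFinset (fun i => Q (φ i))).card : ℝ) := by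
    rw [Finset.sum_const, nsmul_eq_mul, ← Nat.cast_sum, hc, Nat.cast_mul]
    have h0 : (0 : ℝ) ≤ ((Fintype.piFinset (fun i => Q (φ i))).card : ℝ) := Nat.cast_nonneg _
    calc ((Fintype.piFinset (fun i => Q (φ i))).card : ℝ) * (((Fintype.piFinset Q).filter P).card : ℝ)
        ≤ ((Fintype.piFinset (fun i => Q (φ i))).card : ℝ) * (c * (Fintype.piFinset Q).card) :=
          mul_le_mul_of_nonneg_left hP h0
      _ = _ := by ring
  obtain ⟨D0, hD0, h⟩ := Finset.exists_le_of_sum_le hne hle
  exact ⟨D0, fun e => (Fintype.mem_piFinset.mp hD0) e, h⟩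

end Pool.Agent.Lib.MP_33d9ce_co.Cst.T
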