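import Pool.Agent.Lib.MP_33d9ce_co.Cst.T.Stm

/-!
# Spanning hypercubes, constant density, part T: there are few exceptional labels
-/

set_option autoImplicit false

noncomputable section

open Classical Finset

namespace Pool.Agent.Lib.MP_33d9ce_co.Cst.T

private theorem exc_union {Ω : Type} (W : Finset Ω) (m : ℕ) (p : (k : ℕ) → Fin k → Ω → Prop) (c : ℝ)
    (hc : 0 ≤ c) (h : ∀ k, k ≤ m → ∀ i : Fin k, ((W.filter (p k i)).card : ℝ) ≤ c) :
    ((W.filter fun v => ∃ k, k ≤ m ∧ ∃ i : Fin k, p k i v).card : ℝ) ≤ ((m : ℝ) + 1) * (m * c) := by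
  have hsub : (W.filter fun v => ∃ k, k ≤ m ∧ ∃ i : Fin k, p k i v) ⊆
      (Finset.range (m + 1)).biUnion fun k => (Finset.univ : Finset (Fin k)).biUnion fun i => W.filter (p k i) := by
    intro v hv
    rw [Finset.mem_filter] at hv
    obtain ⟨hvW, k, hk, i, hi⟩ := hv
    rw [Finset.mem_biUnion]
    refine ⟨k, Finset.mem_range.2 (by omega), ?_⟩
    rw [Finset.mem_biUnion]
    exact ⟨i, Finset.mem_univ _, Finset.mem_filter.2 ⟨hvW, hi⟩⟩
  have h1 : ((W.filter fun v => ∃ k, k ≤ m ∧ ∃ i : Fin k, p k i v).card : ℝ) ≤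
      ∑ k ∈ Finset.range (m + 1), ∑ i : Fin k, ((W.filter (p k i)).card : ℝ) := by
    have h2 := (Finset.card_le_card hsub).trans Finset.card_biUnion_le
    have h3 : ∑ k ∈ Finset.range (m + 1),
        ((Finset.univ : Finset (Fin k)).biUnion fun i => W.filter (p k i)).card ≤
        ∑ k ∈ Finset.range (m + 1), ∑ i : Fin k, (W.filter (p k i)).card :=
      Finset.sum_le_sum fun k _ => Finset.card_biUnion_le
    have h4 := h2.trans h3
    exact_mod_cast h4
  refine h1.trans ?_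
  have h5 : ∀ k ∈ Finset.range (m + 1), ∑ i : Fin k, ((W.filter (p k i)).card : ℝ) ≤ m * c := by
    intro k hk
    have hk' : k ≤ m := by
      have := Finset.mem_range.1 hk
      omega
    calc ∑ i : Fin k, ((W.filter (p k i)).card : ℝ) ≤ ∑ _i : Fin k, c := Finset.sum_le_sum fun i _ => h k hk' i
      _ = k * c := by simp
      _ ≤ m * c := by
        apply mul_le_mul_of_nonneg_right _ hc
        exact_mod_cast hk'
  calc ∑ k ∈ Finset.range (m + 1), ∑ i : Fin k, ((W.filter (p k i)).card : ℝ)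
      ≤ ∑ _k ∈ Finset.range (m + 1), (m * c : ℝ) := Finset.sum_le_sum h5
    _ = ((m : ℝ) + 1) * (m * c) := by simp

private theorem exc_num (m K N : ℕ) (hm : m ≤ K) (hN : K ≤ N) :
    ((m : ℝ) + 1) * (m * (1 / 2 : ℝ) ^ (13 * N)) ≤ (1 / 2) ^ (11 * K) := by
  have h1 : (m : ℝ) + 1 ≤ 2 ^ K := by
    have h : m + 1 ≤ 2 ^ K := lt_of_le_of_lt hm Nat.lt_two_pow_self
    exact_mod_cast h
  have h2 : (m : ℝ) ≤ 2 ^ K := by linarith
  have h3 : (1 / 2 : ℝ) ^ (13 * N) ≤ (1 / 2) ^ (13 * K) :=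
    pow_le_pow_of_le_one (by norm_num) (by norm_num) (by omega)
  have h4 : (1 / 2 : ℝ) ^ (11 * K) = 2 ^ K * (2 ^ K * (1 / 2) ^ (13 * K)) := by
    have e : 13 * K = K + (K + 11 * K) := by ring
    rw [e, pow_add, pow_add, one_div, inv_pow, inv_pow]
    have hne : (2 : ℝ) ^ K ≠ 0 := by positivity
    field_simp
  rw [h4]
  have h5 : (0 : ℝ) ≤ (1 / 2) ^ (13 * N) := by positivity
  have h6 : (0 : ℝ) ≤ 2 ^ K := by positivity
  apply mul_le_mul h1 _ (by positivity) h6
  exact mul_le_mul h2 h3 h5 h6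

private theorem kap_pos' (j : ℕ) : 1 ≤ kap j := by
  cases j with
  | zero => rw [kap_zero]; norm_num
  | succ j =>
    rw [kap_succ]
    exact Nat.one_le_iff_ne_zero.2 (by positivity)

private theorem kap_mono' (j : ℕ) : kap j ≤ kap (j + 1) := by
  cases j with
  | zero => rw [kap_succ, kap_zero]; simp
  | succ j =>
    rw [kap_succ, kap_succ, pow_succ]
    have h : 0 ≤ 10 ^ 7 * 2500 ^ j := Nat.zero_le _
    calc 10 ^ 7 * 2500 ^ j ≤ (10 ^ 7 * 2500 ^ j) * 2500 := Nat.le_mul_of_pos_right _ (by norm_num)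
      _ = 10 ^ 7 * (2500 ^ j * 2500) := by ring

theorem p_exc (h1 : S_avg) : S_exc := by
  intro X Ω _ _ ok L al W E hyp j
  have hc : ∀ K : ℕ, (0 : ℝ) ≤ (1 / 2) ^ K := fun K => by positivity
  have hsplit : ((Exc ok L al W E j).card : ℝ) ≤
      ((((W j).filter fun v => (1 ≤ j ∧ j + 1 ≤ L) ∧ ∃ k, k ≤ kap (j + 1) ∧ ∃ i : Fin k,
      (1 / 2 : ℝ) ^ (12 * kap (j + 2)) * (prs (Fin k) (Fin k) (W j) (W (j + 1))).card <
      (((prs (Fin k) (Fin k) (W j) (W (j + 1))).filter fun p =>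
        p.1 i = v ∧ TB ok (E (j + 1) k) (al (j + 1)) p.1 p.2).card : ℝ) * (W j).card).card : ℝ)) +
      ((((W j).filter fun v => (2 ≤ j ∧ j ≤ L) ∧ ∃ k, k ≤ kap j ∧ ∃ i : Fin k,
      (1 / 2 : ℝ) ^ (12 * kap (j + 1)) * (prs (Fin k) (Fin k) (W (j - 1)) (W j)).card <
      (((prs (Fin k) (Fin k) (W (j - 1)) (W j)).filter fun p =>
        p.2 i = v ∧ TB ok (E j k) (al j) p.1 p.2).card : ℝ) * (W j).card).card : ℝ)) := by
    have hs : Exc ok L al W E j ⊆ ((W j).filter fun v => (1 ≤ j ∧ j + 1 ≤ L) ∧ ∃ k, k ≤ kap (j + 1) ∧ ∃ i : Fin k,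
      (1 / 2 : ℝ) ^ (12 * kap (j + 2)) * (prs (Fin k) (Fin k) (W j) (W (j + 1))).card <
      (((prs (Fin k) (Fin k) (W j) (W (j + 1))).filter fun p =>
        p.1 i = v ∧ TB ok (E (j + 1) k) (al (j + 1)) p.1 p.2).card : ℝ) * (W j).card) ∪
      ((W j).filter fun v => (2 ≤ j ∧ j ≤ L) ∧ ∃ k, k ≤ kap j ∧ ∃ i : Fin k,
      (1 / 2 : ℝ) ^ (12 * kap (j + 1)) * (prs (Fin k) (Fin k) (W (j - 1)) (W j)).card <
      (((prs (Fin k) (Fin k) (W (j - 1)) (W j)).filter fun p =>
        p.2 i = v ∧ TB ok (E j k) (al j) p.1 p.2).card : ℝ) * (W j).card) := by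
      intro v hv
      unfold Exc at hv
      rw [Finset.mem_filter] at hv
      rw [Finset.mem_union, Finset.mem_filter, Finset.mem_filter]
      rcases hv with ⟨hW, h | h⟩
      · left
        exact ⟨hW, ⟨h.1, h.2.1⟩, h.2.2⟩
      · right
        exact ⟨hW, ⟨h.1, h.2.1⟩, h.2.2⟩
    have h2 := (Finset.card_le_card hs).trans (Finset.card_union_le _ _)
    exact_mod_cast h2
  have hA : ((((W j).filter fun v => (1 ≤ j ∧ j + 1 ≤ L) ∧ ∃ k, k ≤ kap (j + 1) ∧ ∃ i : Fin k,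
      (1 / 2 : ℝ) ^ (12 * kap (j + 2)) * (prs (Fin k) (Fin k) (W j) (W (j + 1))).card <
      (((prs (Fin k) (Fin k) (W j) (W (j + 1))).filter fun p =>
        p.1 i = v ∧ TB ok (E (j + 1) k) (al (j + 1)) p.1 p.2).card : ℝ) * (W j).card).card : ℝ)) ≤
      (1 / 2) ^ (11 * kap (j + 1)) * (W j).card := by
    by_cases hj : 1 ≤ j ∧ j + 1 ≤ L
    · have e : ((W j).filter fun v => (1 ≤ j ∧ j + 1 ≤ L) ∧ ∃ k, k ≤ kap (j + 1) ∧ ∃ i : Fin k,
          (1 / 2 : ℝ) ^ (12 * kap (j + 2)) * (prs (Fin k) (Fin k) (W j) (W (j + 1))).card <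
          (((prs (Fin k) (Fin k) (W j) (W (j + 1))).filter fun p =>
          p.1 i = v ∧ TB ok (E (j + 1) k) (al (j + 1)) p.1 p.2).card : ℝ) * (W j).card) =
          ((W j).filter fun v => ∃ k, k ≤ kap (j + 1) ∧ ∃ i : Fin k,
          (1 / 2 : ℝ) ^ (12 * kap (j + 2)) * (prs (Fin k) (Fin k) (W j) (W (j + 1))).card <
          (((prs (Fin k) (Fin k) (W j) (W (j + 1))).filter fun p =>
          p.1 i = v ∧ TB ok (E (j + 1) k) (al (j + 1)) p.1 p.2).card : ℝ) * (W j).card) := by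
        apply Finset.filter_congr
        intro v _
        constructor
        · exact fun h => h.2
        · exact fun h => ⟨hj, h⟩
      rw [e]
      have h3 := exc_union (W j) (kap (j + 1)) (fun k i v =>
          (1 / 2 : ℝ) ^ (12 * kap (j + 2)) * (prs (Fin k) (Fin k) (W j) (W (j + 1))).card <
          (((prs (Fin k) (Fin k) (W j) (W (j + 1))).filter fun p =>
          p.1 i = v ∧ TB ok (E (j + 1) k) (al (j + 1)) p.1 p.2).card : ℝ) * (W j).card)
          ((1 / 2) ^ (13 * kap (j + 2)) * (W j).card) (by positivity) (by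
          intro k hk i
          have h4 := h1 ((Fin k → Ω) × (Fin k → Ω)) Ω (prs (Fin k) (Fin k) (W j) (W (j + 1)))
            (fun p => p.1 i) (fun p => TB ok (E (j + 1) k) (al (j + 1)) p.1 p.2) (W j)
            ((1 / 2) ^ (13 * kap (j + 2))) ((1 / 2) ^ (12 * kap (j + 2))) (hc _) (by positivity) (by
              have h5 := hyp (j + 1) (by omega) hj.2 k hk
              rw [← pow_add, show 13 * kap (j + 2) + 12 * kap (j + 2) = 25 * kap (j + 2) by ring]
              exact h5)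
          exact h4)
      refine h3.trans ?_
      have h6 := exc_num (kap (j + 1)) (kap (j + 1)) (kap (j + 2)) le_rfl (kap_mono' (j + 1))
      calc ((kap (j + 1) : ℝ) + 1) * (kap (j + 1) * ((1 / 2) ^ (13 * kap (j + 2)) * (W j).card))
          = ((kap (j + 1) : ℝ) + 1) * (kap (j + 1) * (1 / 2) ^ (13 * kap (j + 2))) * (W j).card := by ring
        _ ≤ (1 / 2) ^ (11 * kap (j + 1)) * (W j).card := mul_le_mul_of_nonneg_right h6 (Nat.cast_nonneg _)
    · have e : ((W j).filter fun v => (1 ≤ j ∧ j + 1 ≤ L) ∧ ∃ k, k ≤ kap (j + 1) ∧ ∃ i : Fin k,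
          (1 / 2 : ℝ) ^ (12 * kap (j + 2)) * (prs (Fin k) (Fin k) (W j) (W (j + 1))).card <
          (((prs (Fin k) (Fin k) (W j) (W (j + 1))).filter fun p =>
          p.1 i = v ∧ TB ok (E (j + 1) k) (al (j + 1)) p.1 p.2).card : ℝ) * (W j).card) = ∅ := by
        apply Finset.filter_eq_empty_iff.2
        intro v _ h
        exact hj h.1
      rw [e, Finset.card_empty, Nat.cast_zero]
      positivity
  have hB : ((((W j).filter fun v => (2 ≤ j ∧ j ≤ L) ∧ ∃ k, k ≤ kap j ∧ ∃ i : Fin k,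
      (1 / 2 : ℝ) ^ (12 * kap (j + 1)) * (prs (Fin k) (Fin k) (W (j - 1)) (W j)).card <
      (((prs (Fin k) (Fin k) (W (j - 1)) (W j)).filter fun p =>
        p.2 i = v ∧ TB ok (E j k) (al j) p.1 p.2).card : ℝ) * (W j).card).card : ℝ)) ≤
      (1 / 2) ^ (11 * kap (j + 1)) * (W j).card := by
    by_cases hj : 2 ≤ j ∧ j ≤ L
    · have e : ((W j).filter fun v => (2 ≤ j ∧ j ≤ L) ∧ ∃ k, k ≤ kap j ∧ ∃ i : Fin k,
          (1 / 2 : ℝ) ^ (12 * kap (j + 1)) * (prs (Fin k) (Fin k) (W (j - 1)) (W j)).card <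
          (((prs (Fin k) (Fin k) (W (j - 1)) (W j)).filter fun p =>
          p.2 i = v ∧ TB ok (E j k) (al j) p.1 p.2).card : ℝ) * (W j).card) =
          ((W j).filter fun v => ∃ k, k ≤ kap j ∧ ∃ i : Fin k,
          (1 / 2 : ℝ) ^ (12 * kap (j + 1)) * (prs (Fin k) (Fin k) (W (j - 1)) (W j)).card <
          (((prs (Fin k) (Fin k) (W (j - 1)) (W j)).filter fun p =>
          p.2 i = v ∧ TB ok (E j k) (al j) p.1 p.2).card : ℝ) * (W j).card) := by
        apply Finset.filter_congr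
        intro v _
        constructor
        · exact fun h => h.2
        · exact fun h => ⟨hj, h⟩
      rw [e]
      have h3 := exc_union (W j) (kap j) (fun k i v =>
          (1 / 2 : ℝ) ^ (12 * kap (j + 1)) * (prs (Fin k) (Fin k) (W (j - 1)) (W j)).card <
          (((prs (Fin k) (Fin k) (W (j - 1)) (W j)).filter fun p =>
          p.2 i = v ∧ TB ok (E j k) (al j) p.1 p.2).card : ℝ) * (W j).card)
          ((1 / 2) ^ (13 * kap (j + 1)) * (W j).card) (by positivity) (by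
          intro k hk i
          have h4 := h1 ((Fin k → Ω) × (Fin k → Ω)) Ω (prs (Fin k) (Fin k) (W (j - 1)) (W j))
            (fun p => p.2 i) (fun p => TB ok (E j k) (al j) p.1 p.2) (W j)
            ((1 / 2) ^ (13 * kap (j + 1))) ((1 / 2) ^ (12 * kap (j + 1))) (hc _) (by positivity) (by
              have h5 := hyp j hj.1 hj.2 k hk
              rw [← pow_add, show 13 * kap (j + 1) + 12 * kap (j + 1) = 25 * kap (j + 1) by ring]
              exact h5)
          exact h4)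
      refine h3.trans ?_
      have h6 := exc_num (kap j) (kap (j + 1)) (kap (j + 1)) (kap_mono' j) le_rfl
      calc ((kap j : ℝ) + 1) * (kap j * ((1 / 2) ^ (13 * kap (j + 1)) * (W j).card))
          = ((kap j : ℝ) + 1) * (kap j * (1 / 2) ^ (13 * kap (j + 1))) * (W j).card := by ring
        _ ≤ (1 / 2) ^ (11 * kap (j + 1)) * (W j).card := mul_le_mul_of_nonneg_right h6 (Nat.cast_nonneg _)
    · have e : ((W j).filter fun v => (2 ≤ j ∧ j ≤ L) ∧ ∃ k, k ≤ kap j ∧ ∃ i : Fin k,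
          (1 / 2 : ℝ) ^ (12 * kap (j + 1)) * (prs (Fin k) (Fin k) (W (j - 1)) (W j)).card <
          (((prs (Fin k) (Fin k) (W (j - 1)) (W j)).filter fun p =>
          p.2 i = v ∧ TB ok (E j k) (al j) p.1 p.2).card : ℝ) * (W j).card) = ∅ := by
        apply Finset.filter_eq_empty_iff.2
        intro v _ h
        exact hj h.1
      rw [e, Finset.card_empty, Nat.cast_zero]
      positivity
  have hfin : 2 * (1 / 2 : ℝ) ^ (11 * kap (j + 1)) ≤ (1 / 2) ^ (10 * kap (j + 1)) := by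
    have hK := kap_pos' (j + 1)
    have h7 : (1 / 2 : ℝ) ^ (11 * kap (j + 1)) ≤ (1 / 2) ^ (10 * kap (j + 1) + 1) :=
      pow_le_pow_of_le_one (by norm_num) (by norm_num) (by omega)
    rw [pow_succ] at h7
    linarith
  have hW0 : (0 : ℝ) ≤ ((W j).card : ℝ) := Nat.cast_nonneg _
  have h8 := mul_le_mul_of_nonneg_right hfin hW0
  linarith

end Pool.Agent.Lib.MP_33d9ce_co.Cst.T
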