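import Pool.Agent.Lib.MP_33d9ce_co.Cst.T.Stm

/-!
# Spanning hypercubes, constant density, part T: slots with prescribed block sizes
-/

set_option autoImplicit false

noncomputable section

open Classical Finset

namespace Pool.Agent.Lib.MP_33d9ce_co.Cst.T

/-- slots with prescribed block sizes -/
theorem p_fib : S_fib := by
  intro m L f
  refine ⟨Σ j : {j // j ∈ Icc m L}, Fin (f j.1), inferInstance, fun e => e.1.1, ?_, ?_⟩
  · intro j h1 h2
    have hj : j ∈ Icc m L := mem_Icc.2 ⟨h1, h2⟩
    have e1 : ({e | e.1.1 = j} : Finset (Σ j : {j // j ∈ Icc m L}, Fin (f j.1))) =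
        univ.image fun i : Fin (f j) => (⟨⟨j, hj⟩, i⟩ : Σ j : {j // j ∈ Icc m L}, Fin (f j.1)) := by
      ext e
      rw [mem_filter, mem_image]
      constructor
      · rintro ⟨-, h⟩
        obtain ⟨⟨j', hj'⟩, i⟩ := e
        have h' : j' = j := h
        subst h'
        exact ⟨i, mem_univ _, rfl⟩
      · rintro ⟨i, -, rfl⟩
        exact ⟨mem_univ _, rfl⟩
    rw [e1, card_image_of_injective, card_univ, Fintype.card_fin]
    intro i i' h
    simpa using h
  · intro e
    exact mem_Icc.1 e.1.2

end Pool.Agent.Lib.MP_33d9ce_co.Cst.T
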