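import Pool.Agent.Lib.MP_33d9ce_co.Cst.T.Stm

set_option autoImplicit false

noncomputable section

open Classical Finset

namespace Pool.Agent.Lib.MP_33d9ce_co.Cst.T

theorem p_lnk : S_lnk := by
  intro X Ω a b E ι ι' _ ok R bE l φ hφ hR D0 al p q h
  set D : E → Ω := Function.extend φ (Sum.elim p q) D0 with hD
  set E0 : Finset X := ({x | ∀ e, e ∉ Set.range φ → R l (bE e) → ok x (D0 e)} : Finset X) with hE0
  have hDin : ∀ i, D (φ i) = Sum.elim p q i := fun i => hφ.extend_apply _ _ i
  have hDout : ∀ e, e ∉ Set.range φ → D e = D0 e := fun e he =>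
    Function.extend_apply' _ _ _ (by simpa [Set.mem_range] using he)
  have key : ∀ (P : ι ⊕ ι' → Prop) (x : X) (Q : E → Prop), (∀ i, Q (φ i) ↔ P i) → (∀ e, e ∉ Set.range φ → Q e) →
      ((∀ e, Q e → R l (bE e) → ok x (D e)) ↔ x ∈ E0 ∧ ∀ i, P i → ok x (Sum.elim p q i)) := by
    intro P x Q hQ hQ'
    constructor
    · intro hx
      refine ⟨?_, fun i hi => ?_⟩
      · rw [hE0]
        simp only [mem_filter, mem_univ, true_and]
        intro e he hre
        rw [← hDout e he]
        exact hx e (hQ' e he) hre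
      · rw [← hDin i]
        exact hx _ ((hQ i).2 hi) (hR i)
    · rintro ⟨hx, hx'⟩ e hqe hre
      by_cases he : e ∈ Set.range φ
      · obtain ⟨i, rfl⟩ := he
        rw [hDin i]
        exact hx' i ((hQ i).1 hqe)
      · rw [hDout e he]
        rw [hE0] at hx
        simp only [mem_filter, mem_univ, true_and] at hx
        exact hx e he hre
  have h1 : cn ok R bE D l = AA ok E0 p q := by
    ext x
    have := key (fun _ => True) x (fun _ => True) (fun _ => Iff.rfl) (fun _ _ => trivial)
    simp only [forall_const, Sum.forall, Sum.elim_inl, Sum.elim_inr] at this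
    simp only [cn, AA, mem_filter, mem_univ, true_and]
    exact this
  have h2 : ∀ i0, cnm ok R bE D (φ (Sum.inl i0)) l = AAl ok E0 p q i0 := by
    intro i0
    ext x
    have := key (fun i => i ≠ Sum.inl i0) x (fun e => e ≠ φ (Sum.inl i0)) (fun i => by
      rw [hφ.ne_iff]) (fun e he h => he ⟨_, h.symm⟩)
    simp only [cnm, AAl, mem_filter, mem_univ, true_and]
    rw [this]
    simp [Sum.forall]
  have h3 : ∀ i0, cnm ok R bE D (φ (Sum.inr i0)) l = AAr ok E0 p q i0 := by
    intro i0
    ext x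
    have := key (fun i => i ≠ Sum.inr i0) x (fun e => e ≠ φ (Sum.inr i0)) (fun i => by
      rw [hφ.ne_iff]) (fun e he h => he ⟨_, h.symm⟩)
    simp only [cnm, AAr, mem_filter, mem_univ, true_and]
    rw [this]
    simp [Sum.forall]
  unfold BadD
  rw [h1]
  rcases h with h | ⟨i0, h⟩ | ⟨i0, h⟩
  · exact Or.inl h
  · exact Or.inr ⟨φ (Sum.inl i0), hR _, by rw [h2]; exact h⟩
  · exact Or.inr ⟨φ (Sum.inr i0), hR _, by rw [h3]; exact h⟩

end Pool.Agent.Lib.MP_33d9ce_co.Cst.T
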