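import Pool.Agent.Lib.MP_33d9ce_co.Cst.T.Stm

/-!
# Spanning hypercubes, constant density, part T: piece `loo` (leave one out)
-/

set_option autoImplicit false

noncomputable section

open Classical Finset

namespace Pool.Agent.Lib.MP_33d9ce_co.Cst.T

namespace Loo

/-- exchange the entry in the slot `e0` with the second component -/
def sw {E Ω : Type} (e0 : E) (p : (E → Ω) × Ω) : (E → Ω) × Ω := (Function.update p.1 e0 p.2, p.1 e0)

theorem sw_invol {E Ω : Type} (e0 : E) : Function.Involutive (sw (Ω := Ω) e0) := by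
  intro p
  unfold sw
  simp

theorem sum_update {E Ω : Type} [Fintype E] [Fintype Ω] (e0 : E) (G : (E → Ω) → ℝ) :
    ∑ D : E → Ω, ∑ w : Ω, G (Function.update D e0 w) = (Fintype.card Ω : ℝ) * ∑ D, G D := by
  have h1 : ∑ D : E → Ω, ∑ w : Ω, G (Function.update D e0 w) =
      ∑ p : (E → Ω) × Ω, G (sw e0 p).1 := by
    rw [Fintype.sum_prod_type]
    rfl
  have h2 : ∑ p : (E → Ω) × Ω, G (sw e0 p).1 = ∑ p : (E → Ω) × Ω, G p.1 :=
    Equiv.sum_comp (sw_invol (Ω := Ω) e0).toPerm fun p => G p.1
  rw [h1, h2, Fintype.sum_prod_type, mul_sum]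
  refine sum_congr rfl fun D _ => ?_
  show ∑ _y : Ω, G D = _
  rw [sum_const, nsmul_eq_mul, card_univ]

end Loo

theorem p_loo (h1 : S_one) : S_loo := by
  intro X Ω a b F E _ _ _ _ θ ok hF R bF bE l e0 hl l1 l2 h12
  rcases isEmpty_or_nonempty Ω with hO | hO
  · have hE : IsEmpty (E → Ω) := ⟨fun D => hO.false (D e0)⟩
    simp
  · have hc : (0 : ℝ) < (Fintype.card Ω : ℝ) := by exact_mod_cast Fintype.card_pos
    set A : ℝ := 2 ^ ({s | bF s = l} : Finset F).card *
      (1 - 4 * θ) ^ ({s | R (bF s) (bE e0)} : Finset F).card with hA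
    have key : (Fintype.card Ω : ℝ) * (A * ∑ D ∈ univ.filter (fun D : E → Ω =>
        2 * (cn ok R bE D l).card < (cnm ok R bE D e0 l).card), wt ok R bF bE D) ≤
        (Fintype.card Ω : ℝ) * (2 * ∑ D, wt ok R bF bE D) := by
      have e1 := Loo.sum_update e0 fun D : E → Ω =>
        if 2 * (cn ok R bE D l).card < (cnm ok R bE D e0 l).card then wt ok R bF bE D else 0
      have e2 := Loo.sum_update e0 fun D : E → Ω => wt ok R bF bE D
      rw [sum_filter]
      calc (Fintype.card Ω : ℝ) * (A * ∑ D : E → Ω,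
            if 2 * (cn ok R bE D l).card < (cnm ok R bE D e0 l).card then wt ok R bF bE D else 0)
          = A * ((Fintype.card Ω : ℝ) * ∑ D : E → Ω,
            if 2 * (cn ok R bE D l).card < (cnm ok R bE D e0 l).card then wt ok R bF bE D
              else 0) := by ring
        _ = ∑ D : E → Ω, A * ∑ w : Ω,
            (if 2 * (cn ok R bE (Function.update D e0 w) l).card <
              (cnm ok R bE (Function.update D e0 w) e0 l).card then
              wt ok R bF bE (Function.update D e0 w) else 0) := by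
            rw [← e1, mul_sum]
        _ ≤ ∑ D : E → Ω, 2 * ∑ w : Ω, wt ok R bF bE (Function.update D e0 w) := by
            refine sum_le_sum fun D _ => ?_
            have := h1 X Ω a b F E θ ok hF R bF bE l e0 hl l1 l2 h12 D
            rw [sum_filter] at this
            exact this
        _ = (Fintype.card Ω : ℝ) * (2 * ∑ D, wt ok R bF bE D) := by
            rw [← mul_sum, e2]
            ring
    exact le_of_mul_le_mul_left key hc

end Pool.Agent.Lib.MP_33d9ce_co.Cst.T
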