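import Pool.Agent.Lib.MP_33d9ce_co.Cst.T.Stm

set_option autoImplicit false

noncomputable section

open Classical Finset

namespace Pool.Agent.Lib.MP_33d9ce_co.Cst.T

theorem p_mk : S_mk := by
  intro X Ω _ _ θ ok h c B
  have hf0 : ∀ w : Ω, (0 : ℝ) ≤ ((B.filter fun x => ¬ ok x w).card : ℝ) := fun w => Nat.cast_nonneg _
  have hsum : ∑ w : Ω, ((B.filter fun x => ¬ ok x w).card : ℝ)
      = ∑ x ∈ B, (({w | ¬ ok x w} : Finset Ω).card : ℝ) := by
    have h1 : ∀ w : Ω, ((B.filter fun x => ¬ ok x w).card : ℝ)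
        = ∑ x ∈ B, (if ¬ ok x w then (1 : ℝ) else 0) := by
      intro w
      rw [Finset.card_filter]
      push_cast
      rfl
    have h2 : ∀ x : X, (({w | ¬ ok x w} : Finset Ω).card : ℝ)
        = ∑ w : Ω, (if ¬ ok x w then (1 : ℝ) else 0) := by
      intro x
      rw [Finset.card_filter]
      push_cast
      rfl
    simp_rw [h1, h2]
    exact Finset.sum_comm
  have hle : ∑ w : Ω, ((B.filter fun x => ¬ ok x w).card : ℝ)
      ≤ B.card * (θ * Fintype.card Ω) := by
    rw [hsum]
    calc ∑ x ∈ B, (({w | ¬ ok x w} : Finset Ω).card : ℝ)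
        ≤ ∑ x ∈ B, θ * Fintype.card Ω := Finset.sum_le_sum fun x _ => h.right x
      _ = B.card * (θ * Fintype.card Ω) := by rw [Finset.sum_const, nsmul_eq_mul]
  by_cases hz : θ * (B.card : ℝ) ≤ 0
  · have hall : ∀ w : Ω, ((B.filter fun x => ¬ ok x w).card : ℝ) ≤ 0 := by
      intro w
      have h3 : ((B.filter fun x => ¬ ok x w).card : ℝ)
          ≤ ∑ w : Ω, ((B.filter fun x => ¬ ok x w).card : ℝ) :=
        Finset.single_le_sum (f := fun w : Ω => ((B.filter fun x => ¬ ok x w).card : ℝ))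
          (fun w _ => hf0 w) (Finset.mem_univ w)
      have h4 : (B.card : ℝ) * (θ * Fintype.card Ω) ≤ 0 := by
        have : (B.card : ℝ) * (θ * Fintype.card Ω) = (θ * (B.card : ℝ)) * Fintype.card Ω := by ring
        rw [this]
        exact mul_nonpos_of_nonpos_of_nonneg hz (Nat.cast_nonneg _)
      linarith
    have hemp : ({w | (c : ℝ) * θ * B.card < ((B.filter fun x => ¬ ok x w).card : ℝ)} : Finset Ω) = ∅ := by
      apply Finset.filter_eq_empty_iff.mpr
      intro w _
      have h5 := hall w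
      have h6 : (0 : ℝ) ≤ (c : ℝ) * θ * B.card :=
        mul_nonneg (mul_nonneg (Nat.cast_nonneg _) h.nonneg) (Nat.cast_nonneg _)
      linarith
    rw [hemp]
    simp
  · have hz : 0 < θ * (B.card : ℝ) := lt_of_not_ge hz
    have h7 : ((({w | (c : ℝ) * θ * B.card < ((B.filter fun x => ¬ ok x w).card : ℝ)} : Finset Ω).card : ℝ))
        * ((c : ℝ) * θ * B.card) ≤ ∑ w : Ω, ((B.filter fun x => ¬ ok x w).card : ℝ) := by
      calc ((({w | (c : ℝ) * θ * B.card < ((B.filter fun x => ¬ ok x w).card : ℝ)} : Finset Ω).card : ℝ))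
            * ((c : ℝ) * θ * B.card)
          = ∑ w ∈ ({w | (c : ℝ) * θ * B.card < ((B.filter fun x => ¬ ok x w).card : ℝ)} : Finset Ω),
              ((c : ℝ) * θ * B.card) := by rw [Finset.sum_const, nsmul_eq_mul]
        _ ≤ ∑ w ∈ ({w | (c : ℝ) * θ * B.card < ((B.filter fun x => ¬ ok x w).card : ℝ)} : Finset Ω),
              ((B.filter fun x => ¬ ok x w).card : ℝ) := by
            apply Finset.sum_le_sum
            intro w hw
            exact (Finset.mem_filter.mp hw).2.le
        _ ≤ ∑ w : Ω, ((B.filter fun x => ¬ ok x w).card : ℝ) :=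
            Finset.sum_le_sum_of_subset_of_nonneg (Finset.subset_univ _) (fun w _ _ => hf0 w)
    have h8 : (θ * (B.card : ℝ)) * ((c : ℝ) *
        (({w | (c : ℝ) * θ * B.card < ((B.filter fun x => ¬ ok x w).card : ℝ)} : Finset Ω).card : ℝ))
        ≤ (θ * (B.card : ℝ)) * Fintype.card Ω := by
      calc _ = ((({w | (c : ℝ) * θ * B.card < ((B.filter fun x => ¬ ok x w).card : ℝ)} : Finset Ω).card : ℝ))
            * ((c : ℝ) * θ * B.card) := by ring
        _ ≤ _ := h7
        _ ≤ _ := hle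
        _ = _ := by ring
    exact le_of_mul_le_mul_left h8 hz

end Pool.Agent.Lib.MP_33d9ce_co.Cst.T
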