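import Pool.Agent.Lib.MP_33d9ce_co.Cst.T.Stm

/-!
# Spanning hypercubes, constant density, part T: the numbers of `S_n1`
-/

set_option autoImplicit false

noncomputable section

open Classical Finset

namespace Pool.Agent.Lib.MP_33d9ce_co.Cst.T

namespace n1

theorem kap_le (l : ℕ) : kap l ≤ kap (l + 1) := by
  cases l with
  | zero => rw [kap_zero, kap_succ]; simp
  | succ j =>
    rw [kap_succ, kap_succ]
    exact Nat.mul_le_mul_left _ (Nat.pow_le_pow_right (by norm_num) (Nat.le_succ j))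

theorem kap_two (l : ℕ) : kap (l + 2) = 2500 * kap (l + 1) := by
  rw [kap_succ, kap_succ, pow_succ]; ring

theorem kap_pos (l : ℕ) : 2 ≤ kap (l + 1) := by
  rw [kap_succ]
  have h : 1 ≤ 2500 ^ l := Nat.one_le_pow _ _ (by norm_num)
  calc 2 ≤ 10 ^ 7 * 1 := by norm_num
    _ ≤ 10 ^ 7 * 2500 ^ l := Nat.mul_le_mul_left _ h

theorem aux {θ : ℝ} (h : θ ≤ 1 / 10 ^ 19) (n : ℕ) (hn : n = 250100) : (1 / 2 : ℝ) ≤ (1 - 4 * θ) ^ n := by
  have h1 : (-2 : ℝ) ≤ -(4 * θ) := by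
    have : θ ≤ 1 / 2 := h.trans (by norm_num)
    linarith
  have h2 := one_add_mul_le_pow h1 n
  have h3 : (1 : ℝ) - 4 * θ = 1 + -(4 * θ) := by ring
  rw [h3]
  refine le_trans ?_ h2
  clear h2
  have h4 : (n : ℝ) * (4 * θ) ≤ 1 / 2 := by
    rw [hn]
    calc ((250100 : ℕ) : ℝ) * (4 * θ) = 1000400 * θ := by push_cast; ring
      _ ≤ 1000400 * (1 / 10 ^ 19) := by gcongr
      _ ≤ 1 / 2 := by norm_num
  linarith

theorem main {θ : ℝ} (h : θ ≤ 1 / 10 ^ 19) (K k : ℕ) (hk : k ≤ K) (hK : 2 ≤ K) :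
    (1 / 3 : ℝ) ^ (100 * K) + ((k + K : ℕ) : ℝ) *
      (2 * (1 / 2) ^ (100 * K) / (1 - 4 * θ) ^ (100 * K + 100 * (2500 * K))) ≤ (1 / 2) ^ (50 * K) := by
  have hp : (1 / 2 : ℝ) ^ K ≤ (1 - 4 * θ) ^ (100 * K + 100 * (2500 * K)) := by
    obtain ⟨n, hn⟩ : ∃ n : ℕ, n = 250100 := ⟨_, rfl⟩
    have e : 100 * K + 100 * (2500 * K) = n * K := by rw [hn]; ring
    rw [e, pow_mul]
    exact pow_le_pow_left₀ (by norm_num) (aux h n hn) K
  have hpp : (0 : ℝ) < (1 / 2 : ℝ) ^ K := by positivity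
  have hK2 : (K : ℝ) ≤ 2 ^ K := by exact_mod_cast (Nat.lt_two_pow_self (n := K)).le
  have h4 : (4 : ℝ) ≤ 2 ^ K := by
    calc (4 : ℝ) = 2 ^ 2 := by norm_num
      _ ≤ 2 ^ K := pow_le_pow_right₀ (by norm_num) hK
  -- first summand
  have a1 : (1 / 3 : ℝ) ^ (100 * K) ≤ (1 / 2) ^ (97 * K) := by
    calc (1 / 3 : ℝ) ^ (100 * K) ≤ (1 / 2) ^ (100 * K) :=
          pow_le_pow_left₀ (by norm_num) (by norm_num) _
      _ ≤ (1 / 2) ^ (97 * K) :=
          pow_le_pow_of_le_one (by norm_num) (by norm_num) (Nat.mul_le_mul_right K (by norm_num))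
  -- second summand
  have a2 : ((k + K : ℕ) : ℝ) * (2 * (1 / 2) ^ (100 * K) / (1 - 4 * θ) ^ (100 * K + 100 * (2500 * K))) ≤
      (1 / 2) ^ (97 * K) := by
    have b1 : 2 * (1 / 2 : ℝ) ^ (100 * K) / (1 - 4 * θ) ^ (100 * K + 100 * (2500 * K)) ≤
        2 * (1 / 2 : ℝ) ^ (99 * K) := by
      calc 2 * (1 / 2 : ℝ) ^ (100 * K) / (1 - 4 * θ) ^ (100 * K + 100 * (2500 * K))
          ≤ 2 * (1 / 2 : ℝ) ^ (100 * K) / (1 / 2 : ℝ) ^ K :=
            div_le_div_of_nonneg_left (by positivity) hpp hp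
        _ = 2 * (1 / 2 : ℝ) ^ (99 * K) := by
            rw [div_eq_iff hpp.ne', mul_assoc, ← pow_add]
            congr 2
            ring
    have b2 : ((k + K : ℕ) : ℝ) ≤ 2 * 2 ^ K := by
      have : ((k + K : ℕ) : ℝ) ≤ 2 * K := by
        push_cast
        have : (k : ℝ) ≤ K := by exact_mod_cast hk
        linarith
      linarith
    calc ((k + K : ℕ) : ℝ) * (2 * (1 / 2) ^ (100 * K) / (1 - 4 * θ) ^ (100 * K + 100 * (2500 * K)))
        ≤ (2 * 2 ^ K) * (2 * (1 / 2 : ℝ) ^ (99 * K)) := by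
          apply mul_le_mul b2 b1 _ (by positivity)
          have : (0 : ℝ) < (1 - 4 * θ) ^ (100 * K + 100 * (2500 * K)) := lt_of_lt_of_le hpp hp
          positivity
      _ = 4 * (2 ^ K * (1 / 2 : ℝ) ^ (99 * K)) := by ring
      _ ≤ 2 ^ K * (2 ^ K * (1 / 2 : ℝ) ^ (99 * K)) := by
          apply mul_le_mul_of_nonneg_right h4 (by positivity)
      _ = (1 / 2) ^ (97 * K) := by
          have e : 99 * K = K + (K + 97 * K) := by ring
          rw [e, pow_add, pow_add]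
          have f : (2 : ℝ) ^ K * (1 / 2) ^ K = 1 := by
            rw [← mul_pow]; norm_num
          calc (2 : ℝ) ^ K * (2 ^ K * ((1 / 2) ^ K * ((1 / 2) ^ K * (1 / 2) ^ (97 * K))))
              = (2 ^ K * (1 / 2) ^ K) * (2 ^ K * (1 / 2) ^ K) * (1 / 2) ^ (97 * K) := by ring
            _ = _ := by rw [f]; ring
  calc _ ≤ (1 / 2 : ℝ) ^ (97 * K) + (1 / 2) ^ (97 * K) := add_le_add a1 a2
    _ = 2 * (1 / 2 : ℝ) ^ (97 * K) := by ring
    _ ≤ 2 * (1 / 2 : ℝ) ^ (50 * K + 1) := by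
        apply mul_le_mul_of_nonneg_left _ (by norm_num)
        exact pow_le_pow_of_le_one (by norm_num) (by norm_num) (by omega)
    _ = (1 / 2) ^ (50 * K) := by rw [pow_succ]; ring

end n1

theorem p_n1 : S_n1 := by
  intro θ l _ h
  have e := n1.kap_two l
  have := n1.main h (kap (l + 1)) (kap l) (n1.kap_le l) (n1.kap_pos l)
  rw [e]
  exact this

end Pool.Agent.Lib.MP_33d9ce_co.Cst.T
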