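import Pool.Agent.Lib.MP_33d9ce_co.Cst.T.Stm

/-! Piece n2: numbers. -/

set_option autoImplicit false

noncomputable section

open Classical Finset

namespace Pool.Agent.Lib.MP_33d9ce_co.Cst.T

namespace n2

private theorem kap_ge (j : ℕ) : j + 3 ≤ kap (j + 1) := by
  rw [kap_succ]
  have h : j < 2500 ^ j := Nat.lt_pow_self (by norm_num)
  generalize 2500 ^ j = m at h
  have h2 : m + 2 ≤ 10 ^ 7 * m := by
    have : 1 ≤ m := by omega
    omega
  omega

private theorem geo (n : ℕ) : ∑ j ∈ range n, (1 / 2 : ℝ) ^ (j + 3) = 1 / 4 - (1 / 2) ^ (n + 2) := by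
  induction n with
  | zero => norm_num
  | succ n ih =>
    rw [sum_range_succ, ih]
    ring

private theorem geo_le (s : Finset ℕ) (L : ℕ) (hs : s ⊆ range (L + 1)) :
    ∑ j ∈ s, (1 / 2 : ℝ) ^ (j + 3) ≤ 1 / 4 := by
  refine (sum_le_sum_of_subset_of_nonneg hs fun i _ _ => by positivity).trans ?_
  rw [geo]
  have : (0 : ℝ) ≤ (1 / 2) ^ (L + 1 + 2) := by positivity
  linarith

end n2

theorem p_n2 : S_n2 := by
  intro L
  have h1 : ∑ j ∈ Icc 1 L, (1 / 3 : ℝ) ^ kap (j + 1) ≤ 1 / 4 := by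
    refine le_trans (sum_le_sum fun j _ => ?_) (n2.geo_le (Icc 1 L) L ?_)
    · have hk := n2.kap_ge j
      generalize kap (j + 1) = K at hk ⊢
      calc (1 / 3 : ℝ) ^ K ≤ (1 / 2) ^ K := pow_le_pow_left₀ (by norm_num) (by norm_num) K
        _ ≤ (1 / 2) ^ (j + 3) := pow_le_pow_of_le_one (by norm_num) (by norm_num) hk
    · intro j hj
      rw [mem_Icc] at hj
      rw [mem_range]
      omega
  have h2 : ∑ l ∈ Icc 2 L, (1 / 2 : ℝ) ^ (50 * kap (l + 1)) / (1 / 2) ^ (25 * kap (l + 1)) ≤ 1 / 4 := by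
    refine le_trans (sum_le_sum fun l _ => ?_) (n2.geo_le (Icc 2 L) L ?_)
    · have hk := n2.kap_ge l
      generalize kap (l + 1) = K at hk ⊢
      have e : (1 / 2 : ℝ) ^ (50 * K) = (1 / 2) ^ (25 * K) * (1 / 2) ^ (25 * K) := by
        rw [← pow_add]
        exact congrArg _ (by omega)
      have hp : (0 : ℝ) < (1 / 2) ^ (25 * K) := by positivity
      rw [e, mul_div_assoc, div_self hp.ne', mul_one]
      exact pow_le_pow_of_le_one (by norm_num) (by norm_num) (by omega)
    · intro j hj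
      rw [mem_Icc] at hj
      rw [mem_range]
      omega
  linarith

end Pool.Agent.Lib.MP_33d9ce_co.Cst.T
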