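import Pool.Agent.Lib.MP_33d9ce_co.Cst.T.Stm

/-!
# Spanning hypercubes, constant density: piece `S_one` (leave one out)
-/

set_option autoImplicit false

noncomputable section

open Classical Finset

namespace Pool.Agent.Lib.MP_33d9ce_co.Cst.T

namespace One

theorem cnm_upd {X Ω a b E : Type} [Fintype X] (ok : X → Ω → Prop) (R : a → b → Prop) (bE : E → b)
    (D : E → Ω) (e0 : E) (w : Ω) (l : a) :
    cnm ok R bE (Function.update D e0 w) e0 l = cnm ok R bE D e0 l := by
  ext x
  simp only [cnm, mem_filter, mem_univ, true_and]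
  refine forall_congr' fun e => forall_congr' fun he => ?_
  rw [Function.update_of_ne he]

theorem mem_cn_upd {X Ω a b E : Type} [Fintype X] (ok : X → Ω → Prop) (R : a → b → Prop) (bE : E → b)
    (D : E → Ω) (e0 : E) (w : Ω) (l : a) (x : X) :
    x ∈ cn ok R bE (Function.update D e0 w) l ↔
      x ∈ cnm ok R bE D e0 l ∧ (R l (bE e0) → ok x w) := by
  simp only [cn, cnm, mem_filter, mem_univ, true_and]
  constructor
  · intro h
    refine ⟨fun e he hR => ?_, fun hR => ?_⟩
    · have := h e hR
      rwa [Function.update_of_ne he] at this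
    · have := h e0 hR
      rwa [Function.update_self] at this
  · rintro ⟨h1, h2⟩ e hR
    by_cases he : e = e0
    · subst he
      rw [Function.update_self]
      exact h2 hR
    · rw [Function.update_of_ne he]
      exact h1 e he hR

theorem card_cn_le {X Ω a b E : Type} [Fintype X] (ok : X → Ω → Prop) (R : a → b → Prop) (bE : E → b)
    (D : E → Ω) (e0 : E) (w : Ω) (l : a) :
    ((cn ok R bE (Function.update D e0 w) l).card : ℝ) ≤ ((cnm ok R bE D e0 l).card : ℝ) := by
  exact_mod_cast Finset.card_le_card fun x hx => ((mem_cn_upd ok R bE D e0 w l x).1 hx).1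

theorem card_cn_ge {X Ω a b E : Type} [Fintype X] (ok : X → Ω → Prop) (R : a → b → Prop) (bE : E → b)
    (D : E → Ω) (e0 : E) (w : Ω) (l : a) :
    ((cnm ok R bE D e0 l).card : ℝ) ≤ ((cn ok R bE (Function.update D e0 w) l).card : ℝ) +
      (((cnm ok R bE D e0 l).filter fun x => ¬ ok x w).card : ℝ) := by
  have h : (cnm ok R bE D e0 l) ⊆ (cn ok R bE (Function.update D e0 w) l) ∪
      ((cnm ok R bE D e0 l).filter fun x => ¬ ok x w) := by
    intro x hx
    rw [mem_union]
    by_cases hk : ok x w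
    · exact Or.inl ((mem_cn_upd ok R bE D e0 w l x).2 ⟨hx, fun _ => hk⟩)
    · exact Or.inr (mem_filter.2 ⟨hx, hk⟩)
  exact_mod_cast (Finset.card_le_card h).trans (Finset.card_union_le _ _)

theorem card_cn_eq {X Ω a b E : Type} [Fintype X] (ok : X → Ω → Prop) (R : a → b → Prop) (bE : E → b)
    (D : E → Ω) (e0 : E) (w : Ω) (l : a) (hR : ¬ R l (bE e0)) :
    ((cnm ok R bE D e0 l).card : ℝ) ≤ ((cn ok R bE (Function.update D e0 w) l).card : ℝ) := by
  exact_mod_cast Finset.card_le_card fun x hx => (mem_cn_upd ok R bE D e0 w l x).2 ⟨hx, fun h => absurd h hR⟩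

theorem prod_if {F : Type} [Fintype F] (p : F → Prop) (c : ℝ) (f : F → ℝ) :
    ∏ s, (if p s then c * f s else f s) = c ^ ({s | p s} : Finset F).card * ∏ s, f s := by
  have : ∀ s, (if p s then c * f s else f s) = (if p s then c else 1) * f s := by
    intro s
    split_ifs <;> simp
  simp only [this]
  rw [Finset.prod_mul_distrib, Finset.prod_ite]
  simp

end One

theorem p_one (h1 : S_mk) : S_one := by
  intro X Ω a b F E _ _ _ _ θ ok hF R bF bE l e0 hRl l1 l2 hl D
  set B : a → Finset X := fun l' => cnm ok R bE D e0 l' with hB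
  obtain ⟨P, hP⟩ : ∃ P : ℝ, P = ∏ s, ((B (bF s)).card : ℝ) := ⟨_, rfl⟩
  have hP0 : 0 ≤ P := hP ▸ Finset.prod_nonneg fun s _ => Nat.cast_nonneg _
  have hθ0 := hF.nonneg
  have hθ1 := hF.small
  have hq : 0 ≤ 1 - 4 * θ := by linarith
  have hq1 : 1 - 4 * θ ≤ 1 := by linarith
  obtain ⟨t, ht⟩ : ∃ t, t = ({s | bF s = l} : Finset F).card := ⟨_, rfl⟩
  obtain ⟨u, hu⟩ : ∃ u, u = ({s | R (bF s) (bE e0)} : Finset F).card := ⟨_, rfl⟩
  rw [← ht, ← hu]
  -- upper bound
  have hup : ∀ w ∈ univ.filter (fun w : Ω => 2 * (cn ok R bE (Function.update D e0 w) l).card <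
      (cnm ok R bE (Function.update D e0 w) e0 l).card),
      wt ok R bF bE (Function.update D e0 w) ≤ (1 / 2) ^ t * P := by
    intro w hw
    rw [mem_filter, One.cnm_upd] at hw
    have hw2 : (2 : ℝ) * ((cn ok R bE (Function.update D e0 w) l).card : ℝ) ≤ ((B l).card : ℝ) := by
      exact_mod_cast hw.2.le
    rw [hP, ht, ← One.prod_if]
    unfold wt
    refine Finset.prod_le_prod (fun s _ => Nat.cast_nonneg _) fun s _ => ?_
    split_ifs with hs
    · rw [hs]
      linarith
    · exact One.card_cn_le ok R bE D e0 w (bF s)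
  have hU : ∑ w ∈ univ.filter (fun w : Ω => 2 * (cn ok R bE (Function.update D e0 w) l).card <
      (cnm ok R bE (Function.update D e0 w) e0 l).card), wt ok R bF bE (Function.update D e0 w) ≤
      Fintype.card Ω * ((1 / 2) ^ t * P) := by
    refine (Finset.sum_le_card_nsmul _ _ _ hup).trans ?_
    rw [nsmul_eq_mul]
    have h0 : (0 : ℝ) ≤ (1 / 2) ^ t * P := mul_nonneg (pow_nonneg (by norm_num) _) hP0
    refine mul_le_mul_of_nonneg_right ?_ h0
    exact Nat.cast_le.2 (Finset.card_le_univ _)
  -- lower bound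
  set bad : a → Finset Ω := fun l' =>
    {w | ((4 : ℕ) : ℝ) * θ * (B l').card < (((B l').filter fun x => ¬ ok x w).card : ℝ)} with hbad
  have hb : ∀ l', (4 : ℝ) * ((bad l').card : ℝ) ≤ Fintype.card Ω := fun l' => by
    have := h1 X Ω θ ok hF 4 (B l')
    exact_mod_cast this
  set G : Finset Ω := univ.filter fun w => w ∉ bad l1 ∧ w ∉ bad l2 with hG
  have hGc : (Fintype.card Ω : ℝ) ≤ 2 * (G.card : ℝ) := by
    have hsub : (univ : Finset Ω) ⊆ G ∪ (bad l1 ∪ bad l2) := by
      intro w _
      simp only [hG, mem_union, mem_filter, mem_univ, true_and]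
      tauto
    have h3 : (Fintype.card Ω : ℝ) ≤ G.card + ((bad l1).card + (bad l2).card) := by
      have := (Finset.card_le_card hsub).trans (Finset.card_union_le _ _)
      have h4 := Finset.card_union_le (bad l1) (bad l2)
      rw [Finset.card_univ] at this
      exact_mod_cast this.trans (Nat.add_le_add_left h4 _)
    have h5 := hb l1
    have h6 := hb l2
    linarith
  have hlow : ∀ w ∈ G, (1 - 4 * θ) ^ u * P ≤ wt ok R bF bE (Function.update D e0 w) := by
    intro w hw
    rw [hG, mem_filter] at hw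
    rw [hP, hu, ← One.prod_if]
    unfold wt
    refine Finset.prod_le_prod (fun s _ => ?_) fun s _ => ?_
    · split_ifs
      · exact mul_nonneg hq (Nat.cast_nonneg _)
      · exact Nat.cast_nonneg _
    · split_ifs with hs
      · have hng : w ∉ bad (bF s) := by
          rcases hl _ hs with h | h
          · rw [h]; exact hw.2.1
          · rw [h]; exact hw.2.2
        simp only [hbad, mem_filter, mem_univ, true_and, not_lt] at hng
        have h7 := One.card_cn_ge ok R bE D e0 w (bF s)
        have h8 : (((B (bF s)).filter fun x => ¬ ok x w).card : ℝ) ≤ 4 * θ * (B (bF s)).card := by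
          exact_mod_cast hng
        simp only [hB] at h8 ⊢
        linarith
      · exact One.card_cn_eq ok R bE D e0 w (bF s) hs
  have hL : Fintype.card Ω * ((1 - 4 * θ) ^ u * P) ≤
      2 * ∑ w : Ω, wt ok R bF bE (Function.update D e0 w) := by
    have h9 : ∑ w ∈ G, wt ok R bF bE (Function.update D e0 w) ≤
        ∑ w : Ω, wt ok R bF bE (Function.update D e0 w) :=
      Finset.sum_le_sum_of_subset_of_nonneg (Finset.subset_univ _) fun w _ _ =>
        Finset.prod_nonneg fun s _ => Nat.cast_nonneg _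
    have h10 := Finset.card_nsmul_le_sum G _ _ hlow
    rw [nsmul_eq_mul] at h10
    have h11 : Fintype.card Ω * ((1 - 4 * θ) ^ u * P) ≤ 2 * (G.card : ℝ) * ((1 - 4 * θ) ^ u * P) :=
      mul_le_mul_of_nonneg_right hGc (mul_nonneg (pow_nonneg hq _) hP0)
    linarith
  have h12 : (2 : ℝ) ^ t * (1 / 2) ^ t = 1 := by
    rw [← mul_pow]; norm_num
  calc _ ≤ 2 ^ t * (1 - 4 * θ) ^ u * (Fintype.card Ω * ((1 / 2) ^ t * P)) :=
        mul_le_mul_of_nonneg_left hU (mul_nonneg (pow_nonneg (by norm_num) _) (pow_nonneg hq _))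
    _ = (2 ^ t * (1 / 2) ^ t) * (Fintype.card Ω * ((1 - 4 * θ) ^ u * P)) := by ring
    _ = Fintype.card Ω * ((1 - 4 * θ) ^ u * P) := by rw [h12, one_mul]
    _ ≤ _ := hL

end Pool.Agent.Lib.MP_33d9ce_co.Cst.T
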