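import Pool.Agent.Lib.MP_33d9ce_co.Cst.T.Stm

/-!
# Spanning hypercubes, constant density, part T: piece ratio
-/

set_option autoImplicit false

noncomputable section

open Classical Finset

namespace Pool.Agent.Lib.MP_33d9ce_co.Cst.T

private theorem ratio_sum {X Ω a b E : Type} [Fintype X] [Fintype E] (ok : X → Ω → Prop)
    (R : a → b → Prop) (bE : E → b) (l : a) (Q : E → Finset Ω) :
    ∑ D ∈ Fintype.piFinset Q, ((cn ok R bE D l).card : ℝ) =
      (∑ x : X, ∏ e ∈ ({e | R l (bE e)} : Finset E), (((Q e).filter fun w => ok x w).card : ℝ)) *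
        ∏ e ∈ univ.filter (fun e => ¬ R l (bE e)), ((Q e).card : ℝ) := by
  have h1 : ∀ D : E → Ω, ((cn ok R bE D l).card : ℝ) =
      ∑ x : X, if (∀ e, R l (bE e) → ok x (D e)) then (1 : ℝ) else 0 := by
    intro D
    have h0 : cn ok R bE D l = univ.filter fun x => ∀ e, R l (bE e) → ok x (D e) := by
      ext x
      simp [cn]
    rw [Finset.sum_boole, h0]
  rw [Finset.sum_congr rfl fun D _ => h1 D, Finset.sum_comm, Finset.sum_mul]
  refine Finset.sum_congr rfl fun x _ => ?_
  rw [Finset.sum_boole]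
  have h2 : (Fintype.piFinset Q).filter (fun D => ∀ e, R l (bE e) → ok x (D e)) =
      Fintype.piFinset fun e => if R l (bE e) then (Q e).filter (fun w => ok x w) else Q e := by
    ext D
    rw [Finset.mem_filter, Fintype.mem_piFinset, Fintype.mem_piFinset]
    constructor
    · rintro ⟨h3, h4⟩ e
      by_cases he : R l (bE e)
      · rw [if_pos he, Finset.mem_filter]
        exact ⟨h3 e, h4 e he⟩
      · rw [if_neg he]
        exact h3 e
    · intro h3
      constructor
      · intro e
        have h4 := h3 e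
        by_cases he : R l (bE e)
        · rw [if_pos he, Finset.mem_filter] at h4
          exact h4.1
        · rw [if_neg he] at h4
          exact h4
      · intro e he
        have h4 := h3 e
        rw [if_pos he, Finset.mem_filter] at h4
        exact h4.2
  rw [h2, Fintype.card_piFinset, Nat.cast_prod,
    ← Finset.prod_filter_mul_prod_filter_not (univ : Finset E) (fun e => R l (bE e))]
  congr 1
  · refine Finset.prod_congr rfl fun e he => ?_
    rw [Finset.mem_filter] at he
    rw [if_pos he.2]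
  · refine Finset.prod_congr rfl fun e he => ?_
    rw [Finset.mem_filter] at he
    rw [if_neg he.2]

theorem p_ratio (h1 : S_typ) : S_ratio := by
  intro X Ω a b E _ _ _ θ ok hF R bE l Q Q1 Q2 hQ t
  set k : ℕ := ({e | R l (bE e)} : Finset E).card with hk
  set A : ℝ := 1 / 4 * (1 - 8 * θ) ^ k * Fintype.card X with hA
  set N : ℝ := ((Fintype.piFinset Q).card : ℝ) with hN
  have h8 : (0 : ℝ) ≤ 1 - 8 * θ := by
    have := hF.small
    linarith [hF.nonneg]
  have hA0 : 0 ≤ A := by
    rw [hA]
    positivity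
  -- the mean
  have hmean : 3 * A * N ≤ ∑ D ∈ Fintype.piFinset Q, ((cn ok R bE D l).card : ℝ) := by
    rw [ratio_sum]
    have h2 := h1 X Ω E θ ok hF ({e | R l (bE e)} : Finset E) Q Q1 Q2 (by
      intro e he
      rw [Finset.mem_filter] at he
      exact hQ e he.2)
    have h3 : N = (∏ e ∈ ({e | R l (bE e)} : Finset E), ((Q e).card : ℝ)) *
        ∏ e ∈ univ.filter (fun e => ¬ R l (bE e)), ((Q e).card : ℝ) := by
      rw [hN, Fintype.card_piFinset, Nat.cast_prod,
        ← Finset.prod_filter_mul_prod_filter_not (univ : Finset E) (fun e => R l (bE e))]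
    have h4 : (0 : ℝ) ≤ ∏ e ∈ univ.filter (fun e => ¬ R l (bE e)), ((Q e).card : ℝ) :=
      Finset.prod_nonneg fun e _ => by positivity
    have h5 := mul_le_mul_of_nonneg_right h2 h4
    refine le_trans (le_of_eq ?_) h5
    rw [h3, hA]
    ring
  rcases (Fintype.piFinset Q).eq_empty_or_nonempty with hemp | hne
  · rw [hemp]
    simp
  have hN0 : 0 < N := by
    rw [hN]
    exact_mod_cast hne.card_pos
  -- power mean
  have hpm : N * (3 * A) ^ t ≤ ∑ D ∈ Fintype.piFinset Q, ((cn ok R bE D l).card : ℝ) ^ t := by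
    have h2 := Real.pow_arith_mean_le_arith_mean_pow (Fintype.piFinset Q) (fun _ => N⁻¹)
      (fun D => ((cn ok R bE D l).card : ℝ)) (fun _ _ => by positivity)
      (by
        rw [Finset.sum_const, nsmul_eq_mul]
        exact mul_inv_cancel₀ hN0.ne') (fun _ _ => by positivity) t
    rw [← Finset.mul_sum, ← Finset.mul_sum] at h2
    have h3 : 3 * A ≤ N⁻¹ * ∑ D ∈ Fintype.piFinset Q, ((cn ok R bE D l).card : ℝ) := by
      rw [inv_mul_eq_div, le_div_iff₀ hN0]
      exact hmean
    have h4 : (3 * A) ^ t ≤ N⁻¹ * ∑ D ∈ Fintype.piFinset Q, ((cn ok R bE D l).card : ℝ) ^ t :=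
      (pow_le_pow_left₀ (by positivity) h3 t).trans h2
    rw [inv_mul_eq_div, le_div_iff₀ hN0] at h4
    linarith
  refine le_trans ?_ hpm
  have hl : ∑ D ∈ (Fintype.piFinset Q).filter (fun D => ((cn ok R bE D l).card : ℝ) < A),
      ((cn ok R bE D l).card : ℝ) ^ t ≤ N * A ^ t := by
    have h2 : ∀ D ∈ (Fintype.piFinset Q).filter (fun D => ((cn ok R bE D l).card : ℝ) < A),
        ((cn ok R bE D l).card : ℝ) ^ t ≤ A ^ t := by
      intro D hD
      rw [Finset.mem_filter] at hD
      exact pow_le_pow_left₀ (by positivity) hD.2.le t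
    refine (Finset.sum_le_card_nsmul _ _ _ h2).trans ?_
    rw [nsmul_eq_mul]
    refine mul_le_mul_of_nonneg_right ?_ (by positivity)
    rw [hN]
    exact_mod_cast Finset.card_filter_le _ _
  calc 3 ^ t * ∑ D ∈ (Fintype.piFinset Q).filter (fun D => ((cn ok R bE D l).card : ℝ) < A),
        ((cn ok R bE D l).card : ℝ) ^ t ≤ 3 ^ t * (N * A ^ t) :=
        mul_le_mul_of_nonneg_left hl (by positivity)
    _ = N * (3 * A) ^ t := by
        rw [mul_pow 3 A t]
        ring

end Pool.Agent.Lib.MP_33d9ce_co.Cst.T
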