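import Pool.Agent.Lib.MP_33d9ce_co.Cst.T.Stm

/-! Piece sel of part T: the selection of the vertex configuration. -/

set_option autoImplicit false

noncomputable section

open Classical Finset

namespace Pool.Agent.Lib.MP_33d9ce_co.Cst.T

theorem p_sel : S_sel := by
  intro 𝓓 𝓣 _ _ S J I A B c β δ hc hZ hA hB hsum
  by_contra hcon
  push Not at hcon
  set Z : ℝ := ∑ T, ((S T).card : ℝ) with hZdef
  have key : ∀ T, ((S T).card : ℝ) ≤ ∑ j ∈ J, (if A j T then ((S T).card : ℝ) else 0) +
      ∑ i ∈ I, (((S T).filter (B i)).card : ℝ) / c i := by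
    intro T
    have h1 : ∀ j ∈ J, (0 : ℝ) ≤ (if A j T then ((S T).card : ℝ) else 0) := by
      intro j _
      split_ifs <;> positivity
    have h2 : ∀ i ∈ I, (0 : ℝ) ≤ (((S T).filter (B i)).card : ℝ) / c i := by
      intro i _
      exact div_nonneg (by positivity) (hc i).le
    have h3 := Finset.sum_nonneg h1
    have h4 := Finset.sum_nonneg h2
    by_cases hne : (S T).Nonempty
    · by_cases hj : ∀ j ∈ J, ¬ A j T
      · obtain ⟨i, hi, hlt⟩ := hcon T hne hj
        have h5 := Finset.single_le_sum h2 hi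
        have h6 : ((S T).card : ℝ) ≤ (((S T).filter (B i)).card : ℝ) / c i := by
          rw [le_div_iff₀ (hc i)]
          linarith
        linarith
      · push Not at hj
        obtain ⟨j, hj, hAj⟩ := hj
        have h5 := Finset.single_le_sum h1 hj
        rw [if_pos hAj] at h5
        linarith
    · rw [Finset.not_nonempty_iff_eq_empty] at hne
      have h0 : ((S T).card : ℝ) = 0 := by rw [hne]; simp
      linarith
  have hle : Z ≤ ∑ T, (∑ j ∈ J, (if A j T then ((S T).card : ℝ) else 0) +
      ∑ i ∈ I, (((S T).filter (B i)).card : ℝ) / c i) := Finset.sum_le_sum fun T _ => key T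
  rw [Finset.sum_add_distrib, Finset.sum_comm, Finset.sum_comm (s := univ) (t := I)] at hle
  have e1 : ∑ j ∈ J, ∑ T, (if A j T then ((S T).card : ℝ) else 0) ≤ ∑ j ∈ J, δ j * Z := by
    refine Finset.sum_le_sum fun j hj => ?_
    rw [← Finset.sum_filter]
    exact hA j hj
  have e2 : ∑ i ∈ I, ∑ T, (((S T).filter (B i)).card : ℝ) / c i ≤ ∑ i ∈ I, β i / c i * Z := by
    refine Finset.sum_le_sum fun i hi => ?_
    rw [← Finset.sum_div, div_mul_eq_mul_div]
    exact div_le_div_of_nonneg_right (hB i hi) (hc i).le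
  rw [← Finset.sum_mul] at e1 e2
  have : Z < Z := by
    calc Z ≤ (∑ j ∈ J, δ j) * Z + (∑ i ∈ I, β i / c i) * Z := by linarith
      _ = (∑ j ∈ J, δ j + ∑ i ∈ I, β i / c i) * Z := by ring
      _ < 1 * Z := mul_lt_mul_of_pos_right hsum hZ
      _ = Z := one_mul Z
  exact lt_irrefl _ this

end Pool.Agent.Lib.MP_33d9ce_co.Cst.T
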