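import Pool.Agent.Lib.MP_33d9ce_co.Cst.T.Stm

/-!
# Spanning hypercubes, constant density, part T: piece shr
-/

set_option autoImplicit false

noncomputable section

open Classical Finset

namespace Pool.Agent.Lib.MP_33d9ce_co.Cst.T

private theorem shr_key (k w v : ℕ) (δ : ℝ) (hδ : 0 ≤ δ) (h : (k : ℝ) * δ ≤ 1 / 4)
    (hv : (1 - δ) * (w : ℝ) ≤ (v : ℝ)) : 3 / 4 * (w : ℝ) ^ k ≤ (v : ℝ) ^ k := by
  rcases Nat.eq_zero_or_pos k with hk | hk
  · subst hk
    norm_num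
  · have hk1 : (1 : ℝ) ≤ (k : ℝ) := by exact_mod_cast hk
    have hd : δ ≤ 1 / 4 := by nlinarith
    have h1 : 1 + (k : ℝ) * (-δ) ≤ (1 + (-δ)) ^ k := one_add_mul_le_pow (by linarith) k
    have h2 : (3 / 4 : ℝ) ≤ (1 - δ) ^ k := by
      have : (1 + (-δ)) ^ k = (1 - δ) ^ k := by ring
      rw [this] at h1
      linarith
    have hw : (0 : ℝ) ≤ (w : ℝ) ^ k := by positivity
    calc 3 / 4 * (w : ℝ) ^ k ≤ (1 - δ) ^ k * (w : ℝ) ^ k := mul_le_mul_of_nonneg_right h2 hw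
      _ = ((1 - δ) * (w : ℝ)) ^ k := by rw [mul_pow]
      _ ≤ (v : ℝ) ^ k := by
          apply pow_le_pow_left₀ _ hv
          have : (0 : ℝ) ≤ (w : ℝ) := Nat.cast_nonneg w
          nlinarith

theorem p_shr : S_shr := by
  intro Ω ι _ _ W W' V V' δ δ' hδ hδ' h h' hV hV'
  have h1 := shr_key (Fintype.card ι) W.card V.card δ hδ h hV
  have h2 := shr_key (Fintype.card ι) W'.card V'.card δ' hδ' h' hV'
  have e : ∀ A B : Finset Ω, ((prs ι ι A B).card : ℝ) =
      (A.card : ℝ) ^ (Fintype.card ι) * (B.card : ℝ) ^ (Fintype.card ι) := by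
    intro A B
    unfold prs
    rw [Finset.card_product, Fintype.card_piFinset, Fintype.card_piFinset, Finset.prod_const,
      Finset.prod_const, Finset.card_univ]
    push_cast
    ring
  rw [e, e]
  have hw : (0 : ℝ) ≤ (W.card : ℝ) ^ (Fintype.card ι) := by positivity
  have hw' : (0 : ℝ) ≤ (W'.card : ℝ) ^ (Fintype.card ι) := by positivity
  have hv' : (0 : ℝ) ≤ (V'.card : ℝ) ^ (Fintype.card ι) := by positivity
  have h3 : (3 / 4 * (W.card : ℝ) ^ (Fintype.card ι)) * (3 / 4 * (W'.card : ℝ) ^ (Fintype.card ι)) ≤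
      (V.card : ℝ) ^ (Fintype.card ι) * (V'.card : ℝ) ^ (Fintype.card ι) :=
    mul_le_mul h1 h2 (by positivity) (by positivity)
  nlinarith [mul_nonneg hw hw']

end Pool.Agent.Lib.MP_33d9ce_co.Cst.T
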