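import Pool.Agent.Lib.MP_33d9ce_co.Cst.T.Stm

/-!
# Spanning hypercubes, constant density, part T: from configurations to pairs of families
-/

set_option autoImplicit false

noncomputable section

open Classical Finset

namespace Pool.Agent.Lib.MP_33d9ce_co.Cst.T

/-- an injection of `Fin k` into a fibre -/
theorem two_emb {E : Type} [Fintype E] (bE : E → ℕ) (j k : ℕ) (h : k ≤ ({e | bE e = j} : Finset E).card) :
    ∃ f : Fin k → E, Function.Injective f ∧ ∀ i, bE (f i) = j := by
  have h1 : Fintype.card (Fin k) ≤ Fintype.card {e // bE e = j} := by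
    rw [Fintype.card_fin, Fintype.card_subtype]
    exact h
  obtain ⟨g⟩ := Function.Embedding.nonempty_of_card_le h1
  exact ⟨fun i => (g i).1, fun i i' hi => g.injective (Subtype.ext hi), fun i => (g i).2⟩

theorem two_pi {ι β : Type} (inst : DecidableEq ι) (inst2 : Fintype ι) (s : ι → Finset β) :
    (@Fintype.piFinset ι inst inst2 (fun _ => β) s).card = ∏ i, (s i).card :=
  Fintype.card_piFinset s

theorem two_mem {ι β : Type} (inst : DecidableEq ι) (inst2 : Fintype ι) (s : ι → Finset β) (g : ι → β) :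
    g ∈ @Fintype.piFinset ι inst inst2 (fun _ => β) s ↔ ∀ i, g i ∈ s i :=
  Fintype.mem_piFinset

theorem two_card {Ω E : Type} [Fintype E] (bE : E → ℕ) (W : ℕ → Finset Ω) (l k : ℕ) (φ : Fin k ⊕ Fin k → E)
    (hl : ∀ i, bE (φ (Sum.inl i)) = l - 1) (hr : ∀ i, bE (φ (Sum.inr i)) = l)
    (inst : DecidableEq (Fin k ⊕ Fin k)) :
    (@Fintype.piFinset (Fin k ⊕ Fin k) inst _ (fun _ => Ω) fun i => W (bE (φ i))).card =
      (prs (Fin k) (Fin k) (W (l - 1)) (W l)).card := by
  unfold prs
  rw [two_pi, Finset.card_product, two_pi, two_pi, Fintype.prod_sum_type]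
  simp only [hl, hr]

theorem p_two (h1 : S_dum) (h2 : S_lnk) : S_two := by
  intro X Ω E _ _ _ ok bE W al c l k hl hne hk1 hk2 hbad
  obtain ⟨f1, i1, b1⟩ := two_emb bE (l - 1) k hk1
  obtain ⟨f2, i2, b2⟩ := two_emb bE l k hk2
  have hne2 : ∀ i i', f1 i ≠ f2 i' := by
    intro i i' h
    have e1 := b1 i
    have e2 := b2 i'
    rw [h] at e1
    omega
  have hφ : Function.Injective (Sum.elim f1 f2) := i1.sumElim i2 hne2
  obtain ⟨D0, -, hD0⟩ := h1 Ω E (Fin k ⊕ Fin k) (fun e => W (bE e)) hne (fun D => BadD ok Rc bE al l D) c hbad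
    (Sum.elim f1 f2) hφ
  rw [two_card bE W l k (Sum.elim f1 f2) (fun i => b1 i) (fun i => b2 i)] at hD0
  refine ⟨@Finset.filter X (fun x => ∀ e, e ∉ Set.range (Sum.elim f1 f2) → Rc l (bE e) → ok x (D0 e))
    (fun _ => Classical.propDecidable _) Finset.univ, ?_⟩
  have hR : ∀ i, Rc l (bE (Sum.elim f1 f2 i)) := by
    intro i
    cases i with
    | inl i =>
      right
      rw [Sum.elim_inl, b1 i]
      omega
    | inr i =>
      left
      rw [Sum.elim_inr, b2 i]
  refine le_trans (Nat.cast_le.2 (Finset.card_le_card_of_injOn (fun p => Sum.elim p.1 p.2) ?_ ?_)) hD0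
  · intro p hp
    rw [Finset.mem_coe, Finset.mem_filter] at hp
    rw [Finset.mem_coe, Finset.mem_filter]
    refine ⟨?_, h2 X Ω ℕ ℕ E (Fin k) (Fin k) ok Rc bE l (Sum.elim f1 f2) hφ hR D0 al p.1 p.2 hp.2⟩
    have hp1 := hp.1
    unfold prs at hp1
    rw [Finset.mem_product, two_mem, two_mem] at hp1
    rw [two_mem]
    intro i
    cases i with
    | inl i =>
      simp only [Sum.elim_inl, b1 i]
      exact hp1.1 i
    | inr i =>
      simp only [Sum.elim_inr, b2 i]
      exact hp1.2 i
  · intro p _ p' _ h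
    refine Prod.ext (funext fun i => ?_) (funext fun i => ?_)
    · exact congrFun h (Sum.inl i)
    · exact congrFun h (Sum.inr i)

end Pool.Agent.Lib.MP_33d9ce_co.Cst.T
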