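import Pool.Agent.Lib.MP_33d9ce_co.Cst.T.Stm

set_option autoImplicit false

noncomputable section

open Classical Finset

namespace Pool.Agent.Lib.MP_33d9ce_co.Cst.T

theorem p_typ (h1 : S_mk) : S_typ := by
  intro X Ω E _ _ θ ok hF El Q Q1 Q2 hQ
  have hθ := hF.nonneg
  have hs := hF.small
  have h8 : (0 : ℝ) ≤ 1 - 8 * θ := by linarith
  have hm : ∀ B : Finset Ω, (8 : ℝ) * (({x | (8 : ℝ) * θ * B.card <
      ((B.filter fun w => ¬ ok x w).card : ℝ)} : Finset X).card : ℝ) ≤ Fintype.card X := by
    intro B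
    have := h1 Ω X θ (fun w x => ok x w) hF.flip 8 B
    exact_mod_cast this
  have m1 := hm Q1
  have m2 := hm Q2
  set X1 : Finset X := ({x | (8 : ℝ) * θ * Q1.card <
      ((Q1.filter fun w => ¬ ok x w).card : ℝ)} : Finset X) with hX1
  set X2 : Finset X := ({x | (8 : ℝ) * θ * Q2.card <
      ((Q2.filter fun w => ¬ ok x w).card : ℝ)} : Finset X) with hX2
  set Gd : Finset X := (univ : Finset X).filter (fun x => x ∉ X1 ∧ x ∉ X2) with hGd
  set P : ℝ := (1 - 8 * θ) ^ El.card * ∏ e ∈ El, ((Q e).card : ℝ) with hP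
  have hP0 : 0 ≤ P := by
    rw [hP]
    exact mul_nonneg (pow_nonneg h8 _) (Finset.prod_nonneg fun e _ => Nat.cast_nonneg _)
  -- the good set is large
  have hcard : 3 / 4 * (Fintype.card X : ℝ) ≤ (Gd.card : ℝ) := by
    have hu : (univ : Finset X) ⊆ Gd ∪ (X1 ∪ X2) := by
      intro x _
      by_cases a1 : x ∈ X1
      · exact Finset.mem_union_right _ (Finset.mem_union_left _ a1)
      · by_cases a2 : x ∈ X2
        · exact Finset.mem_union_right _ (Finset.mem_union_right _ a2)
        · refine Finset.mem_union_left _ ?_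
          rw [hGd, Finset.mem_filter]
          exact ⟨Finset.mem_univ _, a1, a2⟩
    have h2 := Finset.card_le_card hu
    have h3 := (Finset.card_union_le Gd (X1 ∪ X2))
    have h4 := (Finset.card_union_le X1 X2)
    rw [Finset.card_univ] at h2
    have h5 : Fintype.card X ≤ Gd.card + (X1.card + X2.card) := by omega
    have h6 : (Fintype.card X : ℝ) ≤ Gd.card + (X1.card + X2.card) := by exact_mod_cast h5
    linarith
  -- each good vertex
  have hgood : ∀ x ∈ Gd, P ≤ ∏ e ∈ El, (((Q e).filter fun w => ok x w).card : ℝ) := by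
    intro x hx
    rw [hGd, Finset.mem_filter] at hx
    obtain ⟨_, hx1, hx2⟩ := hx
    have hb : ∀ e ∈ El, (1 - 8 * θ) * ((Q e).card : ℝ) ≤
        (((Q e).filter fun w => ok x w).card : ℝ) := by
      intro e he
      have hsp : (((Q e).filter fun w => ok x w).card : ℝ) +
          (((Q e).filter fun w => ¬ ok x w).card : ℝ) = ((Q e).card : ℝ) := by
        have := Finset.card_filter_add_card_filter_not (s := Q e) (fun w => ok x w)
        exact_mod_cast this
      have hbad : (((Q e).filter fun w => ¬ ok x w).card : ℝ) ≤ 8 * θ * ((Q e).card : ℝ) := by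
        rcases hQ e he with h | h
        · rw [h]
          by_contra hc
          push Not at hc
          apply hx1
          rw [hX1, Finset.mem_filter]
          exact ⟨Finset.mem_univ _, hc⟩
        · rw [h]
          by_contra hc
          push Not at hc
          apply hx2
          rw [hX2, Finset.mem_filter]
          exact ⟨Finset.mem_univ _, hc⟩
      linarith
    rw [hP, ← Finset.prod_const, ← Finset.prod_mul_distrib]
    exact Finset.prod_le_prod (fun e _ => mul_nonneg h8 (Nat.cast_nonneg _)) hb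
  calc 3 / 4 * (1 - 8 * θ) ^ El.card * (∏ e ∈ El, ((Q e).card : ℝ)) * Fintype.card X
      = (3 / 4 * (Fintype.card X : ℝ)) * P := by rw [hP]; ring
    _ ≤ (Gd.card : ℝ) * P := mul_le_mul_of_nonneg_right hcard hP0
    _ = ∑ x ∈ Gd, P := by rw [Finset.sum_const, nsmul_eq_mul]
    _ ≤ ∑ x ∈ Gd, ∏ e ∈ El, (((Q e).filter fun w => ok x w).card : ℝ) :=
        Finset.sum_le_sum hgood
    _ ≤ ∑ x : X, ∏ e ∈ El, (((Q e).filter fun w => ok x w).card : ℝ) :=
        Finset.sum_le_sum_of_subset_of_nonneg (Finset.subset_univ _)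
          (fun x _ _ => Finset.prod_nonneg fun e _ => Nat.cast_nonneg _)

end Pool.Agent.Lib.MP_33d9ce_co.Cst.T
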