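import Pool.Agent.Lib.MP_33d9ce_co.Cst.T.Asm
import Pool.Agent.Lib.MP_33d9ce_co.Cst.T.P_dual
import Pool.Agent.Lib.MP_33d9ce_co.Cst.T.P_mk
import Pool.Agent.Lib.MP_33d9ce_co.Cst.T.P_typ
import Pool.Agent.Lib.MP_33d9ce_co.Cst.T.P_ratio
import Pool.Agent.Lib.MP_33d9ce_co.Cst.T.P_blk
import Pool.Agent.Lib.MP_33d9ce_co.Cst.T.P_one
import Pool.Agent.Lib.MP_33d9ce_co.Cst.T.P_loo
import Pool.Agent.Lib.MP_33d9ce_co.Cst.T.P_beta
import Pool.Agent.Lib.MP_33d9ce_co.Cst.T.P_pos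
import Pool.Agent.Lib.MP_33d9ce_co.Cst.T.P_sel
import Pool.Agent.Lib.MP_33d9ce_co.Cst.T.P_n1
import Pool.Agent.Lib.MP_33d9ce_co.Cst.T.P_n2
import Pool.Agent.Lib.MP_33d9ce_co.Cst.T.P_dum
import Pool.Agent.Lib.MP_33d9ce_co.Cst.T.P_lnk
import Pool.Agent.Lib.MP_33d9ce_co.Cst.T.P_two
import Pool.Agent.Lib.MP_33d9ce_co.Cst.T.P_avg
import Pool.Agent.Lib.MP_33d9ce_co.Cst.T.P_exc
import Pool.Agent.Lib.MP_33d9ce_co.Cst.T.P_shr
import Pool.Agent.Lib.MP_33d9ce_co.Cst.T.P_trn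
import Pool.Agent.Lib.MP_33d9ce_co.Cst.T.P_fib
import Pool.Agent.Lib.MP_33d9ce_co.Cst.T.P_cfg

/-!
# Spanning hypercubes, constant density, part T: the label sets exist
-/

set_option autoImplicit false

namespace Pool.Agent.Lib.MP_33d9ce_co.Cst

open T

theorem main_T : S_T :=
  have typ := p_typ p_mk
  have ratio := p_ratio typ
  have blk := p_blk p_dual ratio
  have loo := p_loo (p_one p_mk)
  have beta := p_beta blk loo
  have cfg := p_cfg p_dual blk beta p_pos p_sel p_n1 p_n2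
  T.main cfg p_fib (p_two p_dum p_lnk) (p_exc p_avg) p_shr p_trn

end Pool.Agent.Lib.MP_33d9ce_co.Cst
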