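import Pool.Agent.Lib.MP_33d9ce_co.Cst.T.Stm

/-!
# Spanning hypercubes, constant density, part T: assembly
-/

set_option autoImplicit false

noncomputable section

open Classical Finset

namespace Pool.Agent.Lib.MP_33d9ce_co.Cst.T

theorem kap_pos (j : ℕ) : 0 < kap j := by
  cases j with
  | zero => rw [kap_zero]; positivity
  | succ j => rw [kap_succ]; positivity

theorem kap_mono (j : ℕ) : kap j ≤ kap (j + 1) := by
  cases j with
  | zero => rw [kap_zero, kap_succ]; simp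
  | succ j =>
    rw [kap_succ, kap_succ]
    exact Nat.mul_le_mul_left _ (Nat.pow_le_pow_right (by norm_num) (by omega))

/-- `K (1/2)^(10 m) ≤ 1/4` for `K ≤ m`, `1 ≤ m` -/
theorem small_aux (K m : ℕ) (h : K ≤ m) (hm : 1 ≤ m) : (K : ℝ) * (1 / 2) ^ (10 * m) ≤ 1 / 4 := by
  have h1 : (K : ℝ) ≤ 2 ^ m := by
    have : (m : ℝ) < 2 ^ m := by exact_mod_cast Nat.lt_two_pow_self
    have h' : (K : ℝ) ≤ m := by exact_mod_cast h
    linarith
  have h2 : (1 / 2 : ℝ) ^ (10 * m) ≤ (1 / 2) ^ (m + 2) :=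
    pow_le_pow_of_le_one (by norm_num) (by norm_num) (by omega)
  have h3 : (2 : ℝ) ^ m * (1 / 2) ^ (m + 2) = 1 / 4 := by
    rw [pow_add, ← mul_assoc, ← mul_pow]; norm_num
  calc (K : ℝ) * (1 / 2) ^ (10 * m) ≤ 2 ^ m * (1 / 2) ^ (m + 2) := by gcongr
    _ = 1 / 4 := h3

theorem half_aux (m : ℕ) (hm : 1 ≤ m) : (1 / 2 : ℝ) ^ (10 * m) ≤ 1 / 4 := by
  simpa using small_aux 1 m hm hm

theorem prs_mono {Ω ι : Type} [Fintype ι] {W W' V V' : Finset Ω} (h : V ⊆ W) (h' : V' ⊆ W') :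
    prs ι ι V V' ⊆ prs ι ι W W' := by
  unfold prs
  exact Finset.product_subset_product (Fintype.piFinset_subset _ _ fun _ => h)
    (Fintype.piFinset_subset _ _ fun _ => h')

theorem stp {x a c P Q : ℝ} (h1 : x ≤ a * P) (h2 : P ≤ 2 * Q) (h3 : a ≤ c) (h4 : 0 ≤ a) (h5 : 0 ≤ Q) :
    x ≤ 2 * c * Q := by
  have e1 : a * P ≤ a * (2 * Q) := mul_le_mul_of_nonneg_left h2 h4
  have e2 : a * (2 * Q) ≤ c * (2 * Q) := mul_le_mul_of_nonneg_right h3 (by linarith)
  calc x ≤ c * (2 * Q) := h1.trans (e1.trans e2)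
    _ = 2 * c * Q := by ring

theorem main (hcfg : S_cfg) (hfib : S_fib) (htwo : S_two) (hexc : S_exc) (hshr : S_shr) (htrn : S_trn) : S_T := by
  intro X Ω _ _ _ _ θ ok L hF hθ
  obtain ⟨E, _, bE, hE1, hE2⟩ := hfib 1 L (fun j => kap (j + 1))
  obtain ⟨F, _, bF, hF1, hF2⟩ := hfib 2 L (fun j => 100 * kap (j + 1))
  obtain ⟨T, hT1, hT2, hT3⟩ := hcfg X Ω E F θ ok L hF hθ bE bF hE1 hF1 hF2
  set W0 : ℕ → Finset Ω := fun j => if 1 ≤ j ∧ j ≤ L then lab ok Rc bF T j else univ with hW0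
  set al : ℕ → ℝ := fun l => 1 / 4 * (1 - 8 * θ) ^ (kap l + kap (l + 1)) with hal
  have hθ0 := hF.nonneg
  have hθ8 : 0 < 1 - 8 * θ := by have := hF.small; linarith
  have hWE : (fun e => W0 (bE e)) = fun e => lab ok Rc bF T (bE e) := by
    funext e; simp only [hW0]; rw [if_pos (hE2 e)]
  have hne0 : ∀ j, (W0 j).Nonempty := by
    intro j
    by_cases h : 1 ≤ j ∧ j ≤ L
    · simp only [hW0]; rw [if_pos h]
      have h1 := hT2 j h.1 h.2
      have h2 : (0 : ℝ) < 1 / 4 * (1 - 8 * θ) ^ (100 * kap (j + 1) + 100 * kap (j + 2)) * Fintype.card Ω := by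
        have : (0 : ℝ) < Fintype.card Ω := by exact_mod_cast Fintype.card_pos
        positivity
      have h3 : (0 : ℝ) < ((lab ok Rc bF T j).card : ℝ) := lt_of_lt_of_le h2 h1
      exact Finset.card_pos.mp (by exact_mod_cast h3)
    · simp only [hW0]; rw [if_neg h]; exact univ_nonempty
  -- the restrictions
  have h2 : ∀ l k, ∃ E0 : Finset X, 2 ≤ l → l ≤ L → k ≤ kap l →
      (((prs (Fin k) (Fin k) (W0 (l - 1)) (W0 l)).filter fun p => TB ok E0 (al l) p.1 p.2).card : ℝ) ≤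
        (1 / 2) ^ (25 * kap (l + 1)) * (prs (Fin k) (Fin k) (W0 (l - 1)) (W0 l)).card := by
    intro l k
    by_cases h : 2 ≤ l ∧ l ≤ L ∧ k ≤ kap l
    · obtain ⟨hl, hlL, hk⟩ := h
      have hk1 : k ≤ ({e | bE e = l - 1} : Finset E).card := by
        rw [hE1 (l - 1) (by omega) (by omega)]
        have : l - 1 + 1 = l := by omega
        simp only [this]; exact hk
      have hk2 : k ≤ ({e | bE e = l} : Finset E).card := by
        rw [hE1 l (by omega) hlL]; exact hk.trans (kap_mono l)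
      obtain ⟨E0, hE0⟩ := htwo X Ω E ok bE W0 (al l) ((1 / 2) ^ (25 * kap (l + 1))) l k hl (fun e => hne0 _)
        hk1 hk2 (by rw [hWE]; exact hT3 l hl hlL)
      exact ⟨E0, fun _ _ _ => hE0⟩
    · exact ⟨∅, fun a b c => absurd ⟨a, b, c⟩ h⟩
  choose E2 hE2' using h2
  -- removal of the exceptional labels
  set W : ℕ → Finset Ω := fun j => W0 j \ Exc ok L al W0 E2 j with hW
  have hex := hexc X Ω ok L al W0 E2 (fun l hl hlL k hk => hE2' l k hl hlL hk)
  have hsub : ∀ j, W j ⊆ W0 j := fun j => sdiff_subset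
  have hWc : ∀ j, (1 - (1 / 2) ^ (10 * kap (j + 1))) * ((W0 j).card : ℝ) ≤ ((W j).card : ℝ) := by
    intro j
    have h1 : Exc ok L al W0 E2 j ⊆ W0 j := filter_subset _ _
    have h2 : (W j).card = (W0 j).card - (Exc ok L al W0 E2 j).card := card_sdiff_of_subset h1
    have h3 := card_le_card h1
    have h4 : ((W j).card : ℝ) = (W0 j).card - (Exc ok L al W0 E2 j).card := by
      rw [h2]; push_cast [h3]; ring
    rw [h4]; have := hex j; linarith
  have hWc' : ∀ j, 1 / 2 * ((W0 j).card : ℝ) ≤ ((W j).card : ℝ) := by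
    intro j
    refine le_trans ?_ (hWc j)
    have := half_aux (kap (j + 1)) (kap_pos _)
    gcongr
    linarith
  have hWne : ∀ j, (W j).Nonempty := by
    intro j
    have h1 := hWc' j
    have h2 : (0 : ℝ) < (W0 j).card := by exact_mod_cast Finset.card_pos.mpr (hne0 j)
    have h3 : (0 : ℝ) < (W j).card := by linarith
    exact Finset.card_pos.mp (by exact_mod_cast h3)
  refine ⟨W, E2, hWne, ?_, ?_⟩
  · intro j hj hjL
    have h1 := hT2 j hj hjL
    have h2 := hWc' j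
    have h3 : W0 j = lab ok Rc bF T j := by simp only [hW0]; rw [if_pos ⟨hj, hjL⟩]
    rw [h3] at h2
    simp only
    linarith
  · intro l hl hlL ι _ hι
    obtain ⟨k, hk⟩ : ∃ k, Fintype.card ι = k := ⟨_, rfl⟩
    rw [hk] at hι ⊢
    have σ : ι ≃ Fin k := Fintype.equivFinOfCardEq hk
    have hl1 : l - 1 + 1 = l := by omega
    have hl2 : l - 1 + 2 = l + 1 := by omega
    obtain ⟨t1, t2, t3, t4⟩ := htrn X Ω ι ok k σ (W0 (l - 1)) (W0 l) (E2 l k) (al l)
    have hbad := hE2' l k hl hlL hι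
    rw [← t1, ← t2] at hbad
    have hshr' : ((prs ι ι (W0 (l - 1)) (W0 l)).card : ℝ) ≤ 2 * (prs ι ι (W (l - 1)) (W l)).card := by
      refine hshr Ω ι (W0 (l - 1)) (W0 l) (W (l - 1)) (W l) ((1 / 2) ^ (10 * kap l)) ((1 / 2) ^ (10 * kap (l + 1)))
        (by positivity) (by positivity) ?_ ?_ ?_ (hWc l)
      · rw [hk]; exact small_aux k _ hι (kap_pos _)
      · rw [hk]; exact small_aux k _ (hι.trans (kap_mono l)) (kap_pos _)
      · have := hWc (l - 1); rw [hl1] at this; exact this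
    have hps := prs_mono (ι := ι) (hsub (l - 1)) (hsub l)
    have hpow : (1 / 2 : ℝ) ^ (25 * kap (l + 1)) ≤ (1 / 2) ^ (12 * kap (l + 1)) :=
      pow_le_pow_of_le_one (by norm_num) (by norm_num) (by omega)
    have hp0 : (0 : ℝ) < (1 / 2) ^ (12 * kap (l + 1)) := by positivity
    refine ⟨?_, ?_, ?_⟩
    · have h1 : ((((prs ι ι (W (l - 1)) (W l)).filter fun p => TB ok (E2 l k) (al l) p.1 p.2).card : ℝ)) ≤
          (((prs ι ι (W0 (l - 1)) (W0 l)).filter fun p => TB ok (E2 l k) (al l) p.1 p.2).card : ℝ) :=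
        Nat.cast_le.mpr (card_le_card (filter_subset_filter _ hps))
      exact stp (h1.trans hbad) hshr' hpow (pow_nonneg (by norm_num) _) (Nat.cast_nonneg _)
    · intro i0 v hv
      have hv0 : v ∈ W0 (l - 1) := hsub _ hv
      have hv1 : v ∉ Exc ok L al W0 E2 (l - 1) := (mem_sdiff.mp hv).2
      have hv2 : (((prs (Fin k) (Fin k) (W0 (l - 1)) (W0 l)).filter fun p =>
          p.1 (σ i0) = v ∧ TB ok (E2 l k) (al l) p.1 p.2).card : ℝ) * (W0 (l - 1)).card ≤
          (1 / 2 : ℝ) ^ (12 * kap (l + 1)) * (prs (Fin k) (Fin k) (W0 (l - 1)) (W0 l)).card := by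
        by_contra hcon
        push Not at hcon
        apply hv1
        unfold Exc
        refine mem_filter.mpr ⟨hv0, Or.inl ⟨by omega, by omega, k, ?_, σ i0, ?_⟩⟩
        · rw [hl1]; exact hι
        · rw [hl1, hl2]; exact hcon
      rw [← t1, ← t3] at hv2
      have h1 := card_le_card (filter_subset_filter (fun p : (ι → Ω) × (ι → Ω) =>
              p.1 i0 = v ∧ TB ok (E2 l k) (al l) p.1 p.2) hps)
      have h2 := card_le_card (hsub (l - 1))
      have h3 : ((((prs ι ι (W (l - 1)) (W l)).filter fun p => p.1 i0 = v ∧ TB ok (E2 l k) (al l) p.1 p.2).card : ℝ)) *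
            (W (l - 1)).card ≤ (((prs ι ι (W0 (l - 1)) (W0 l)).filter fun p =>
              p.1 i0 = v ∧ TB ok (E2 l k) (al l) p.1 p.2).card : ℝ) * (W0 (l - 1)).card := by
        rw [← Nat.cast_mul, ← Nat.cast_mul]
        exact Nat.cast_le.mpr (Nat.mul_le_mul h1 h2)
      exact stp (h3.trans hv2) hshr' le_rfl hp0.le (Nat.cast_nonneg _)
    · intro i0 v hv
      have hv0 : v ∈ W0 l := hsub _ hv
      have hv1 : v ∉ Exc ok L al W0 E2 l := (mem_sdiff.mp hv).2
      have hv2 : (((prs (Fin k) (Fin k) (W0 (l - 1)) (W0 l)).filter fun p =>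
          p.2 (σ i0) = v ∧ TB ok (E2 l k) (al l) p.1 p.2).card : ℝ) * (W0 l).card ≤
          (1 / 2 : ℝ) ^ (12 * kap (l + 1)) * (prs (Fin k) (Fin k) (W0 (l - 1)) (W0 l)).card := by
        by_contra hcon
        push Not at hcon
        apply hv1
        unfold Exc
        exact mem_filter.mpr ⟨hv0, Or.inr ⟨hl, hlL, k, hι, σ i0, hcon⟩⟩
      rw [← t1, ← t4] at hv2
      have h1 := card_le_card (filter_subset_filter (fun p : (ι → Ω) × (ι → Ω) =>
              p.2 i0 = v ∧ TB ok (E2 l k) (al l) p.1 p.2) hps)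
      have h2 := card_le_card (hsub l)
      have h3 : ((((prs ι ι (W (l - 1)) (W l)).filter fun p => p.2 i0 = v ∧ TB ok (E2 l k) (al l) p.1 p.2).card : ℝ)) *
            (W l).card ≤ (((prs ι ι (W0 (l - 1)) (W0 l)).filter fun p =>
              p.2 i0 = v ∧ TB ok (E2 l k) (al l) p.1 p.2).card : ℝ) * (W0 l).card := by
        rw [← Nat.cast_mul, ← Nat.cast_mul]
        exact Nat.cast_le.mpr (Nat.mul_le_mul h1 h2)
      exact stp (h3.trans hv2) hshr' le_rfl hp0.le (Nat.cast_nonneg _)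

end Pool.Agent.Lib.MP_33d9ce_co.Cst.T
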