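import Pool.Agent.Lib.MP_33d9ce_co.Cst.T.Stm

/-!
# Spanning hypercubes, constant density, part T: the piece `S_pos`
-/

set_option autoImplicit false

noncomputable section

open Classical Finset

namespace Pool.Agent.Lib.MP_33d9ce_co.Cst.T

/-- proof of `S_pos` -/
theorem p_pos : S_pos := by
  intro X Ω a b F E _ _ _ _ _ _ θ ok h R bF bE
  have hX : (0 : ℝ) < Fintype.card X := by exact_mod_cast Fintype.card_pos
  have w : Ω := Classical.arbitrary Ω
  have hne : ∃ x, ok x w := by
    by_contra hcon
    push Not at hcon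
    have h1 := h.left w
    have h2 : ({x | ¬ ok x w} : Finset X) = univ := by
      ext x
      simp [hcon x]
    rw [h2, Finset.card_univ] at h1
    have h3 := h.small
    nlinarith
  obtain ⟨x, hx⟩ := hne
  refine Finset.sum_pos' (fun D _ => ?_) ⟨fun _ => w, mem_univ _, ?_⟩
  · unfold wt
    positivity
  · unfold wt
    refine Finset.prod_pos fun s _ => ?_
    have : x ∈ cn ok R bE (fun _ => w) (bF s) := by
      simp [cn, hx]
    exact_mod_cast Finset.card_pos.2 ⟨x, this⟩

end Pool.Agent.Lib.MP_33d9ce_co.Cst.T
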