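import Pool.Agent.Lib.MP_33d9ce_co.Cst.T.Stm

set_option autoImplicit false

noncomputable section

open Classical Finset

namespace Pool.Agent.Lib.MP_33d9ce_co.Cst.T

private theorem trn_all {Ω ι : Type} {k : ℕ} (σ : ι ≃ Fin k) (P : Ω → Prop) (p : ι → Ω) :
    (∀ i, P ((p ∘ σ.symm) i)) ↔ ∀ i, P (p i) := by
  constructor
  · intro h i
    have := h (σ i)
    simpa using this
  · intro h i
    exact h _

private theorem trn_ne {Ω ι : Type} {k : ℕ} (σ : ι ≃ Fin k) (P : Ω → Prop) (p : ι → Ω) (i1 : ι) :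
    (∀ i, i ≠ σ i1 → P ((p ∘ σ.symm) i)) ↔ ∀ i, i ≠ i1 → P (p i) := by
  constructor
  · intro h i hi
    have := h (σ i) (fun hc => hi (σ.injective hc))
    simpa using this
  · intro h i hi
    refine h _ (fun hc => hi ?_)
    rw [← hc, Equiv.apply_symm_apply]

private theorem trn_mAA {X Ω ι ι' : Type} [Fintype X] (ok : X → Ω → Prop) (E : Finset X)
    (p : ι → Ω) (q : ι' → Ω) (x : X) :
    x ∈ AA ok E p q ↔ x ∈ E ∧ (∀ i, ok x (p i)) ∧ ∀ i, ok x (q i) := by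
  unfold AA
  rw [Finset.mem_filter]

private theorem trn_mAAl {X Ω ι ι' : Type} [Fintype X] (ok : X → Ω → Prop) (E : Finset X)
    (p : ι → Ω) (q : ι' → Ω) (i0 : ι) (x : X) :
    x ∈ AAl ok E p q i0 ↔ x ∈ E ∧ (∀ i, i ≠ i0 → ok x (p i)) ∧ ∀ i, ok x (q i) := by
  unfold AAl
  rw [Finset.mem_filter]

private theorem trn_mAAr {X Ω ι ι' : Type} [Fintype X] (ok : X → Ω → Prop) (E : Finset X)
    (p : ι → Ω) (q : ι' → Ω) (i0 : ι') (x : X) :
    x ∈ AAr ok E p q i0 ↔ x ∈ E ∧ (∀ i, ok x (p i)) ∧ ∀ i, i ≠ i0 → ok x (q i) := by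
  unfold AAr
  rw [Finset.mem_filter]

private theorem trn_AA {X Ω ι : Type} [Fintype X] (ok : X → Ω → Prop) {k : ℕ} (σ : ι ≃ Fin k)
    (E0 : Finset X) (p q : ι → Ω) :
    AA ok E0 (p ∘ σ.symm) (q ∘ σ.symm) = AA ok E0 p q := by
  ext x
  rw [trn_mAA, trn_mAA, trn_all σ (fun w => ok x w) p,
    trn_all σ (fun w => ok x w) q]

private theorem trn_AAl {X Ω ι : Type} [Fintype X] (ok : X → Ω → Prop) {k : ℕ} (σ : ι ≃ Fin k)
    (E0 : Finset X) (p q : ι → Ω) (i1 : ι) :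
    AAl ok E0 (p ∘ σ.symm) (q ∘ σ.symm) (σ i1) = AAl ok E0 p q i1 := by
  ext x
  rw [trn_mAAl, trn_mAAl, trn_ne σ (fun w => ok x w) p i1,
    trn_all σ (fun w => ok x w) q]

private theorem trn_AAr {X Ω ι : Type} [Fintype X] (ok : X → Ω → Prop) {k : ℕ} (σ : ι ≃ Fin k)
    (E0 : Finset X) (p q : ι → Ω) (i1 : ι) :
    AAr ok E0 (p ∘ σ.symm) (q ∘ σ.symm) (σ i1) = AAr ok E0 p q i1 := by
  ext x
  rw [trn_mAAr, trn_mAAr, trn_all σ (fun w => ok x w) p,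
    trn_ne σ (fun w => ok x w) q i1]

private theorem trn_TB {X Ω ι : Type} [Fintype X] (ok : X → Ω → Prop) {k : ℕ} (σ : ι ≃ Fin k)
    (E0 : Finset X) (al : ℝ) (p q : ι → Ω) :
    TB ok E0 al (p ∘ σ.symm) (q ∘ σ.symm) ↔ TB ok E0 al p q := by
  unfold TB
  rw [trn_AA ok σ E0 p q]
  have hl : (∃ i0, 2 * (AA ok E0 p q).card <
      (AAl ok E0 (p ∘ σ.symm) (q ∘ σ.symm) i0).card) ↔
      ∃ i0, 2 * (AA ok E0 p q).card < (AAl ok E0 p q i0).card := by
    rw [σ.surjective.exists]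
    simp only [trn_AAl ok σ E0 p q]
  have hr : (∃ i0, 2 * (AA ok E0 p q).card <
      (AAr ok E0 (p ∘ σ.symm) (q ∘ σ.symm) i0).card) ↔
      ∃ i0, 2 * (AA ok E0 p q).card < (AAr ok E0 p q i0).card := by
    rw [σ.surjective.exists]
    simp only [trn_AAr ok σ E0 p q]
  rw [hl, hr]

private theorem trn_mem {Ω ι ι' : Type} [Fintype ι] [Fintype ι'] (W W' : Finset Ω) (p : ι → Ω)
    (q : ι' → Ω) : (p, q) ∈ prs ι ι' W W' ↔ (∀ i, p i ∈ W) ∧ ∀ i, q i ∈ W' := by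
  unfold prs
  rw [Finset.mem_product, Fintype.mem_piFinset, Fintype.mem_piFinset]

private theorem trn_card {Ω ι : Type} [Fintype ι] {k : ℕ} (σ : ι ≃ Fin k) (W W' : Finset Ω)
    (G : (ι → Ω) × (ι → Ω) → Prop) (G' : (Fin k → Ω) × (Fin k → Ω) → Prop)
    [DecidablePred G] [DecidablePred G']
    (hG : ∀ p q : ι → Ω, G (p, q) ↔ G' (p ∘ σ.symm, q ∘ σ.symm)) :
    ((prs ι ι W W').filter G).card = ((prs (Fin k) (Fin k) W W').filter G').card := by
  refine Finset.card_equiv (Equiv.prodCongr (σ.arrowCongr (Equiv.refl Ω))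
    (σ.arrowCongr (Equiv.refl Ω))) ?_
  rintro ⟨p, q⟩
  have e1 : (Equiv.prodCongr (σ.arrowCongr (Equiv.refl Ω)) (σ.arrowCongr (Equiv.refl Ω))) (p, q)
      = (p ∘ σ.symm, q ∘ σ.symm) := rfl
  rw [e1, Finset.mem_filter, Finset.mem_filter, ← hG p q, trn_mem, trn_mem,
    trn_all σ (fun w => w ∈ W) p, trn_all σ (fun w => w ∈ W') q]

theorem p_trn : S_trn := by
  intro X Ω ι _ _ _ ok k σ W W' E0 al
  refine ⟨?_, ?_, fun i0 v => ?_, fun i0 v => ?_⟩
  · have := trn_card σ W W' (fun _ => True) (fun _ => True) (fun _ _ => Iff.rfl)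
    simpa using this
  · exact trn_card σ W W' _ _ (fun p q => (trn_TB ok σ E0 al p q).symm)
  · refine trn_card σ W W' _ _ (fun p q => ?_)
    dsimp only
    rw [trn_TB ok σ E0 al p q, Function.comp_apply, Equiv.symm_apply_apply]
  · refine trn_card σ W W' _ _ (fun p q => ?_)
    dsimp only
    rw [trn_TB ok σ E0 al p q, Function.comp_apply, Equiv.symm_apply_apply]

end Pool.Agent.Lib.MP_33d9ce_co.Cst.T
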