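import Pool.Agent.Lib.MP_33d9ce_co.Cst.Ifc

/-!
# Spanning hypercubes, constant density, part T: the label sets

Pieces of the proof of `S_T` (owner helper61).  Every statement carries its complete proof.

Reminder of the objects (`Cst/TDefs.lean`): label slots `E` in blocks `bE : E → b`, vertex slots `F` in blocks `bF : F → a`,
a relation `R : a → b → Prop`.  For a configuration `D : E → Ω` of labels `cn ok R bE D l` is the set of the vertices compatible
with all labels in the blocks related to `l`, and `wt D = ∏ s : F, #(cn D (bF s))` is the number of the compatible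
configurations `T : F → X`.
-/

set_option autoImplicit false

noncomputable section

open Classical Finset

namespace Pool.Agent.Lib.MP_33d9ce_co.Cst

theorem Fair.flip {X Ω : Type} [Fintype X] [Fintype Ω] {θ : ℝ} {ok : X → Ω → Prop} (h : Fair θ ok) :
    Fair θ (fun w x => ok x w) := ⟨h.nonneg, h.small, h.right, h.left⟩

theorem kap_zero : kap 0 = 10 ^ 7 := rfl

theorem kap_succ (j : ℕ) : kap (j + 1) = 10 ^ 7 * 2500 ^ j := rfl

namespace T

section

variable {X Ω a b F E : Type}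

/-- the labels compatible with all vertices of the configuration `T` in the blocks related to `j` -/
abbrev lab [Fintype Ω] (ok : X → Ω → Prop) (R : a → b → Prop) (bF : F → a) (T : F → X) (j : b) : Finset Ω :=
  cn (fun w x => ok x w) (fun j l => R l j) bF T j

/-- the number of the label configurations compatible with `T` -/
abbrev wtl [Fintype Ω] [Fintype E] (ok : X → Ω → Prop) (R : a → b → Prop) (bF : F → a) (bE : E → b) (T : F → X) : ℝ :=
  wt (fun w x => ok x w) (fun j l => R l j) bE bF T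

/-- `D` is bad at `l`: few compatible vertices, or one label removes more than half of them -/
def BadD [Fintype X] (ok : X → Ω → Prop) (R : a → b → Prop) (bE : E → b) (al : ℝ) (l : a) (D : E → Ω) : Prop :=
  ((cn ok R bE D l).card : ℝ) < al * Fintype.card X ∨
    ∃ e, R l (bE e) ∧ 2 * (cn ok R bE D l).card < (cnm ok R bE D e l).card

end

/-- the relation of the chain: vertices in the block `l` are compatible with the labels in the blocks `l - 1` and `l` -/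
def Rc (l j : ℕ) : Prop := j = l ∨ j + 1 = l

/-- **dual**.  Double counting of the pairs `(D, T)` of compatible configurations.
Proof.  `wt D = ∏ s, #(cn D (bF s)) = #(piFinset fun s => cn D (bF s)) = ∑ T : F → X, if ∀ s, T s ∈ cn D (bF s) then 1 else 0`
(`Fintype.card_piFinset`).  Exchange the sums (`Finset.sum_comm`): for fixed `T` the condition `∀ s, ∀ e, R (bF s) (bE e) →
ok (T s) (D e)` is `∀ e, D e ∈ lab T (bE e)`, that is `D ∈ piFinset fun e => lab T (bE e)`. -/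
def S_dual : Prop := ∀ (X Ω a b F E : Type) [Fintype X] [Fintype Ω] [Fintype F] [Fintype E] (ok : X → Ω → Prop)
  (R : a → b → Prop) (bF : F → a) (bE : E → b) (G : (E → Ω) → ℝ),
  ∑ D, G D * wt ok R bF bE D = ∑ T : F → X, ∑ D ∈ Fintype.piFinset (fun e => lab ok R bF T (bE e)), G D

/-- **mk** (Markov).  At most the proportion `1/c` of the labels are incompatible with more than the proportion `c θ` of `B`.
Proof.  Let `f w = #{x ∈ B | ¬ ok x w}`.  `∑ w, f w = ∑ x ∈ B, #{w | ¬ ok x w} ≤ #B * θ * #Ω` (`h.right`).  Let `S` be the set of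
the `w` with `c θ #B < f w`.  If `θ #B = 0` then `∑ w, f w ≤ 0`, all `f w = 0` and `S = ∅`.  Otherwise `θ #B > 0` and
`#S * (c θ #B) ≤ ∑ w ∈ S, f w ≤ #B * θ * #Ω`; divide by `θ #B`. -/
def S_mk : Prop := ∀ (X Ω : Type) [Fintype X] [Fintype Ω] (θ : ℝ) (ok : X → Ω → Prop), Fair θ ok →
  ∀ (c : ℕ) (B : Finset X),
  (c : ℝ) * (({w | (c : ℝ) * θ * B.card < ((B.filter fun x => ¬ ok x w).card : ℝ)} : Finset Ω).card : ℝ) ≤
    Fintype.card Ω

/-- **typ**.  `Q e` (`e ∈ El`) are label sets taking at most two values; for most vertices `x` the proportion `1 - 8 θ` of each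
`Q e` is compatible with `x`.
Proof.  `S_mk` with the roles of `X` and `Ω` exchanged (`Fair.flip`), `c = 8` and `B = Q1`, `B = Q2`: the sets `X1`, `X2` of
the `x` with `8 θ #Qi < #{w ∈ Qi | ¬ ok x w}` have at most `#X/8` elements.  For `x` outside `X1 ∪ X2` (at least `3/4 #X` vertices)
and `e ∈ El`: `#{w ∈ Q e | ok x w} = #(Q e) - #{w ∈ Q e | ¬ ok x w} ≥ (1 - 8 θ) #(Q e)`, so the product is
`≥ (1 - 8 θ)^#El ∏ #(Q e)` (`Finset.prod_le_prod`; `1 - 8 θ ≥ 0` by `h.small`).  Drop the other `x`. -/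
def S_typ : Prop := ∀ (X Ω E : Type) [Fintype X] [Fintype Ω] (θ : ℝ) (ok : X → Ω → Prop), Fair θ ok →
  ∀ (El : Finset E) (Q : E → Finset Ω) (Q1 Q2 : Finset Ω), (∀ e ∈ El, Q e = Q1 ∨ Q e = Q2) →
  3 / 4 * (1 - 8 * θ) ^ El.card * (∏ e ∈ El, ((Q e).card : ℝ)) * Fintype.card X ≤
    ∑ x : X, ∏ e ∈ El, (((Q e).filter fun w => ok x w).card : ℝ)

/-- **ratio** (Jensen).  Let `N = #(piFinset Q)`, `El = {e | R l (bE e)}`, `k = #El`, `al = 1/4 (1 - 8 θ)^k`.
Proof.  If `N = 0` both sides are `0`.  `∑ D ∈ piFinset Q, #(cn D l) = ∑ x, #{D ∈ piFinset Q | ∀ e ∈ El, ok x (D e)}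
= ∑ x, ∏ e, (if e ∈ El then #{w ∈ Q e | ok x w} else #(Q e)) ≥ 3 al #X N` by `S_typ` (the set of these `D` is the `piFinset` of the
sets `if e ∈ El then (Q e).filter (ok x) else Q e`; split the product over `El` and its complement).  Power mean
(`inner_le_nnorm_mul..` or `Real.pow_arith_mean_le_arith_mean_pow` with weights `1/N`): `∑ D, #(cn D l)^t ≥ N (3 al #X)^t`.
On the other side every term of the left sum is `≤ (al #X)^t`, so it is `≤ N (al #X)^t`, and `3^t (al #X)^t = (3 al #X)^t`. -/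
def S_ratio : Prop := ∀ (X Ω a b E : Type) [Fintype X] [Fintype Ω] [Fintype E] (θ : ℝ) (ok : X → Ω → Prop), Fair θ ok →
  ∀ (R : a → b → Prop) (bE : E → b) (l : a) (Q : E → Finset Ω) (Q1 Q2 : Finset Ω),
  (∀ e, R l (bE e) → Q e = Q1 ∨ Q e = Q2) → ∀ t : ℕ,
  3 ^ t * ∑ D ∈ (Fintype.piFinset Q).filter (fun D => ((cn ok R bE D l).card : ℝ) <
      1 / 4 * (1 - 8 * θ) ^ ({e | R l (bE e)} : Finset E).card * Fintype.card X), ((cn ok R bE D l).card : ℝ) ^ t ≤
    ∑ D ∈ Fintype.piFinset Q, ((cn ok R bE D l).card : ℝ) ^ t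

/-- **blk**.  The weight of the configurations `D` with few vertices compatible with the blocks related to `l`.
Proof.  Let `t = #{s | bF s = l}` and `F' = {s // bF s ≠ l}`.  `wt D = #(cn D l)^t * wt' D`, `wt' = wt` for the slots `F'`
(split the product over `s`; `bF s = l` gives the factor `#(cn D l)`).  `S_dual` for `F'` with `G D = (if .. then 1 else 0) *
#(cn D l)^t` and with `G D = #(cn D l)^t`: both sides are sums over `T : F' → X` of the two sides of `S_ratio` for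
`Q e = lab T (bE e)` (with `bF' = bF ∘ val`), `Q1 = lab T j1`, `Q2 = lab T j2`. -/
def S_blk : Prop := ∀ (X Ω a b F E : Type) [Fintype X] [Fintype Ω] [Fintype F] [Fintype E] (θ : ℝ) (ok : X → Ω → Prop),
  Fair θ ok → ∀ (R : a → b → Prop) (bF : F → a) (bE : E → b) (l : a) (j1 j2 : b), (∀ j, R l j → j = j1 ∨ j = j2) →
  3 ^ ({s | bF s = l} : Finset F).card * ∑ D ∈ univ.filter (fun D : E → Ω => ((cn ok R bE D l).card : ℝ) <
      1 / 4 * (1 - 8 * θ) ^ ({e | R l (bE e)} : Finset E).card * Fintype.card X), wt ok R bF bE D ≤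
    ∑ D, wt ok R bF bE D

/-- **one** (leave one out, all labels but the one in the slot `e0` are fixed).  Let `D w = Function.update D e0 w`,
`t = #{s | bF s = l}`, `u = #{s | R (bF s) (bE e0)}`, `B l' = cnm ok R bE (D w) e0 l'` (it does not depend on `w`).
Proof.  If `R l' (bE e0)` then `cn (D w) l' = (B l').filter (ok · w)`, otherwise `cn (D w) l' = B l'`.  Put `P = ∏ s, #(B (bF s))`.
Upper bound: if `2 #(cn (D w) l) < #(B l)` then the factors of `wt (D w)` with `bF s = l` are `≤ 1/2 #(B (bF s))`, the others are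
`≤ #(B (bF s))`, so `2^t wt (D w) ≤ P` and the left sum is `≤ (1 - 4 θ)^u #Ω P`.  Lower bound: by `S_mk` with `c = 4`, `B = B l1`
and `B = B l2`, at most half of the `w` are incompatible with more than `4 θ #(B l1)` vertices of `B l1` or more than
`4 θ #(B l2)` vertices of `B l2`; for the other `w` each factor with `R (bF s) (bE e0)` is `≥ (1 - 4 θ) #(B (bF s))`, the other
factors are `= #(B (bF s))`, so `wt (D w) ≥ (1 - 4 θ)^u P` and `2 ∑ w, wt (D w) ≥ #Ω (1 - 4 θ)^u P`. -/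
def S_one : Prop := ∀ (X Ω a b F E : Type) [Fintype X] [Fintype Ω] [Fintype F] [Fintype E] (θ : ℝ) (ok : X → Ω → Prop),
  Fair θ ok → ∀ (R : a → b → Prop) (bF : F → a) (bE : E → b) (l : a) (e0 : E), R l (bE e0) →
  ∀ l1 l2 : a, (∀ l', R l' (bE e0) → l' = l1 ∨ l' = l2) → ∀ D : E → Ω,
  2 ^ ({s | bF s = l} : Finset F).card * (1 - 4 * θ) ^ ({s | R (bF s) (bE e0)} : Finset F).card *
    ∑ w ∈ univ.filter (fun w : Ω => 2 * (cn ok R bE (Function.update D e0 w) l).card <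
      (cnm ok R bE (Function.update D e0 w) e0 l).card), wt ok R bF bE (Function.update D e0 w) ≤
    2 * ∑ w : Ω, wt ok R bF bE (Function.update D e0 w)

/-- **loo** (leave one out).  Hypothesis of the piece: `S_one`.
Proof.  For every `G : (E → Ω) → ℝ`: `∑ D, ∑ w, G (Function.update D e0 w) = #Ω ∑ D, G D` (the map `(D, w) ↦ (Function.update D e0 w,
D e0)` is an involution of `(E → Ω) × Ω`, so the left side is `∑ (D, w), G D`).  Apply this to `G = wt` and to `G D = if 2 #(cn D l)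
< #(cnm D e0 l) then wt D else 0`, sum `S_one` over `D` and divide by `#Ω` (if `#Ω = 0` there is no `D`, as `e0` exists). -/
def S_loo : Prop := ∀ (X Ω a b F E : Type) [Fintype X] [Fintype Ω] [Fintype F] [Fintype E] (θ : ℝ) (ok : X → Ω → Prop),
  Fair θ ok → ∀ (R : a → b → Prop) (bF : F → a) (bE : E → b) (l : a) (e0 : E), R l (bE e0) →
  ∀ l1 l2 : a, (∀ l', R l' (bE e0) → l' = l1 ∨ l' = l2) →
  2 ^ ({s | bF s = l} : Finset F).card * (1 - 4 * θ) ^ ({s | R (bF s) (bE e0)} : Finset F).card *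
    ∑ D ∈ univ.filter (fun D : E → Ω => 2 * (cn ok R bE D l).card < (cnm ok R bE D e0 l).card), wt ok R bF bE D ≤
    2 * ∑ D, wt ok R bF bE D

/-- **beta**.  The weight of the bad configurations.  Hypotheses of the piece: `S_blk`, `S_loo`.
Proof.  The set of the `D` which are bad at `l` is contained in the union of the set of `S_blk` and the sets of `S_loo` for the
`e0` with `R l (bE e0)` (there are `#{e | R l (bE e)}` of them); `wt ≥ 0`.  Divide `S_blk` by `3^..` and `S_loo` by `2^.. (1 - 4 θ)^..`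
(`1 - 4 θ > 0` and `≤ 1`, so `(1 - 4 θ)^u ≥ (1 - 4 θ)^t` for `u ≤ t`). -/
def S_beta : Prop := ∀ (X Ω a b F E : Type) [Fintype X] [Fintype Ω] [Fintype F] [Fintype E] (θ : ℝ) (ok : X → Ω → Prop),
  Fair θ ok → ∀ (R : a → b → Prop) (bF : F → a) (bE : E → b) (l : a) (j1 j2 : b), (∀ j, R l j → j = j1 ∨ j = j2) →
  (∀ j, R l j → ∃ l1 l2, ∀ l', R l' j → l' = l1 ∨ l' = l2) → ∀ t : ℕ,
  (∀ e, R l (bE e) → ({s | R (bF s) (bE e)} : Finset F).card ≤ t) →
  ∑ D ∈ univ.filter (fun D : E → Ω => BadD ok R bE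
      (1 / 4 * (1 - 8 * θ) ^ ({e | R l (bE e)} : Finset E).card) l D), wt ok R bF bE D ≤
    ((1 / 3) ^ ({s | bF s = l} : Finset F).card + ({e | R l (bE e)} : Finset E).card *
      (2 * (1 / 2) ^ ({s | bF s = l} : Finset F).card / (1 - 4 * θ) ^ t)) * ∑ D, wt ok R bF bE D

/-- **pos**.  Proof.  All `wt D ≥ 0`.  For a constant `D = fun _ => w` every `cn D l` contains the set of the vertices compatible
with `w`, which is nonempty: it has at least `(1 - θ) #X > 0` elements (`h.left`, `h.small`).  So `wt D > 0`. -/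
def S_pos : Prop := ∀ (X Ω a b F E : Type) [Fintype X] [Fintype Ω] [Fintype F] [Fintype E] [Nonempty X] [Nonempty Ω]
  (θ : ℝ) (ok : X → Ω → Prop), Fair θ ok → ∀ (R : a → b → Prop) (bF : F → a) (bE : E → b),
  0 < ∑ D, wt ok R bF bE D

/-- **sel** (selection).  `S T` the set of the `D` compatible with `T`.
Proof.  Suppose not.  Then every `T` satisfies: `S T = ∅`, or `T ∈ A j` for a `j ∈ J`, or `c i #(S T) < #((S T).filter (B i))` for an `i ∈ I`.
In each case `#(S T) ≤ ∑ j ∈ J, (if T ∈ A j then #(S T) else 0) + ∑ i ∈ I, #((S T).filter (B i)) / c i`.  Sum over `T`: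
`Z ≤ ∑ j, δ j Z + ∑ i, (β i / c i) Z < Z`, a contradiction. -/
def S_sel : Prop := ∀ (𝓓 𝓣 : Type) [Fintype 𝓓] [Fintype 𝓣] (S : 𝓣 → Finset 𝓓) (J I : Finset ℕ) (A : ℕ → 𝓣 → Prop)
  (B : ℕ → 𝓓 → Prop) (c β δ : ℕ → ℝ), (∀ i, 0 < c i) → 0 < ∑ T, ((S T).card : ℝ) →
  (∀ j ∈ J, ∑ T ∈ univ.filter (A j), ((S T).card : ℝ) ≤ δ j * ∑ T, ((S T).card : ℝ)) →
  (∀ i ∈ I, ∑ T, (((S T).filter (B i)).card : ℝ) ≤ β i * ∑ T, ((S T).card : ℝ)) →
  ∑ j ∈ J, δ j + ∑ i ∈ I, β i / c i < 1 →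
  ∃ T, (S T).Nonempty ∧ (∀ j ∈ J, ¬ A j T) ∧ ∀ i ∈ I, (((S T).filter (B i)).card : ℝ) ≤ c i * (S T).card

/-- **n1** (numbers).  Proof.  Let `K = kap (l + 1) = 10^7 * 2500^l`; `kap l ≤ K`, `kap (l + 2) = 2500 K`, so the exponent
is `250100 K`.  By Bernoulli (`one_add_mul_le_pow`) `(1 - 4 θ)^250100 ≥ 1 - 4 * 250100 θ ≥ 1/2`, so `(1 - 4 θ)^(250100 K) ≥ (1/2)^K`
and the second summand is `≤ 2 K * 2 * (1/2)^(100 K) / (1/2)^K = 4 K (1/2)^(99 K)`.  With `K ≤ 2^K` and `4 ≤ 2^K` it is `≤ (1/2)^(97 K)`,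
the first one is `≤ (1/2)^(100 K)`; the sum is `≤ 2 (1/2)^(97 K) ≤ (1/2)^(50 K)`.  Keep `l` and `K` symbolic (no `norm_num` on them). -/
def S_n1 : Prop := ∀ (θ : ℝ) (l : ℕ), 0 ≤ θ → θ ≤ 1 / 10 ^ 19 →
  (1 / 3 : ℝ) ^ (100 * kap (l + 1)) + ((kap l + kap (l + 1) : ℕ) : ℝ) *
    (2 * (1 / 2) ^ (100 * kap (l + 1)) / (1 - 4 * θ) ^ (100 * kap (l + 1) + 100 * kap (l + 2))) ≤
    (1 / 2) ^ (50 * kap (l + 1))

/-- **n2** (numbers).  Proof.  `kap (j + 1) ≥ 10^7 * 2500^j ≥ j + 3`, so `(1/3)^kap (j + 1) ≤ (1/2)^(j + 3)` and `(1/2)^(50 K) / (1/2)^(25 K) =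
(1/2)^(25 K) ≤ (1/2)^(j + 3)`, `K = kap (j + 1)`; each sum is at most `∑ (1/2)^(j + 3) ≤ 1/4`. -/
def S_n2 : Prop := ∀ L : ℕ, ∑ j ∈ Icc 1 L, (1 / 3 : ℝ) ^ kap (j + 1) +
  ∑ l ∈ Icc 2 L, (1 / 2 : ℝ) ^ (50 * kap (l + 1)) / (1 / 2) ^ (25 * kap (l + 1)) < 1

/-- **dum** (dummies).  Proof.  The map `(g, D) ↦ (Function.extend φ g D, D ∘ φ)` is a bijection of `piFinset (Q ∘ φ) × piFinset Q` onto
`piFinset Q × piFinset (Q ∘ φ)` (inverse `(D', g') ↦ (D' ∘ φ, Function.extend φ g' D')`).  So `∑ D ∈ piFinset Q, #{g ∈ piFinset (Q ∘ φ) |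
P (extend φ g D)} = #(piFinset (Q ∘ φ)) * #{D ∈ piFinset Q | P D} ≤ c * #(piFinset (Q ∘ φ)) * #(piFinset Q)`, and some `D ∈ piFinset Q`
(which is nonempty) has at most the average (`Finset.exists_le_of_sum_le`). -/
def S_dum : Prop := ∀ (Ω E κ : Type) [Fintype Ω] [Fintype E] [Fintype κ] (Q : E → Finset Ω), (∀ e, (Q e).Nonempty) →
  ∀ (P : (E → Ω) → Prop) (c : ℝ), (((Fintype.piFinset Q).filter P).card : ℝ) ≤ c * (Fintype.piFinset Q).card →
  ∀ φ : κ → E, Function.Injective φ → ∃ D0 : E → Ω, (∀ e, D0 e ∈ Q e) ∧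
    (((Fintype.piFinset (fun i => Q (φ i))).filter fun g => P (Function.extend φ g D0)).card : ℝ) ≤
      c * (Fintype.piFinset (fun i => Q (φ i))).card

/-- **lnk**.  With `D = Function.extend φ (Sum.elim p q) D0` and `E0` the vertices compatible with the labels of `D0` outside the range of
`φ`: `cn D l = AA ok E0 p q`, `cnm D (φ (inl i0)) l = AAl ok E0 p q i0`, `cnm D (φ (inr i0)) l = AAr ok E0 p q i0`.
Proof.  Membership: split `∀ e, R l (bE e) → ok x (D e)` into `e ∉ range φ` (`Function.extend_apply'`), `e = φ (inl i)`, `e = φ (inr i)`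
(`Function.Injective.extend_apply`; all of them are related to `l`); for `cnm` use that `φ i ≠ φ i0` iff `i ≠ i0`. -/
def S_lnk : Prop := ∀ (X Ω a b E ι ι' : Type) [Fintype X] (ok : X → Ω → Prop) (R : a → b → Prop)
  (bE : E → b) (l : a) (φ : ι ⊕ ι' → E), Function.Injective φ → (∀ i, R l (bE (φ i))) → ∀ (D0 : E → Ω) (al : ℝ)
  (p : ι → Ω) (q : ι' → Ω), TB ok ({x | ∀ e, e ∉ Set.range φ → R l (bE e) → ok x (D0 e)} : Finset X) al p q →
  BadD ok R bE al l (Function.extend φ (Sum.elim p q) D0)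

/-- **two**.  From configurations to pairs of families.  Hypotheses of the piece: `S_dum`, `S_lnk`.
Proof.  There is an injection `φ : Fin k ⊕ Fin k → E` with `bE (φ (inl i)) = l - 1` and `bE (φ (inr i)) = l` (the two fibres of `bE` have
at least `k` elements and are disjoint).  `S_dum` with `Q e = W (bE e)`, `P = BadD ..` gives `D0`; `E0` as in `S_lnk`.  The map `(p, q) ↦
Sum.elim p q` is a bijection of `prs (Fin k) (Fin k) (W (l - 1)) (W l)` onto `piFinset (fun i => Q (φ i))`, so the cardinalities agree, and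
by `S_lnk` bad pairs give bad configurations. -/
def S_two : Prop := ∀ (X Ω E : Type) [Fintype X] [Fintype Ω] [Fintype E] (ok : X → Ω → Prop) (bE : E → ℕ)
  (W : ℕ → Finset Ω) (al c : ℝ) (l k : ℕ), 2 ≤ l → (∀ e, (W (bE e)).Nonempty) →
  k ≤ ({e | bE e = l - 1} : Finset E).card → k ≤ ({e | bE e = l} : Finset E).card →
  (((Fintype.piFinset fun e => W (bE e)).filter fun D => BadD ok Rc bE al l D).card : ℝ) ≤
    c * (Fintype.piFinset fun e => W (bE e)).card →
  ∃ E0 : Finset X, (((prs (Fin k) (Fin k) (W (l - 1)) (W l)).filter fun p => TB ok E0 al p.1 p.2).card : ℝ) ≤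
    c * (prs (Fin k) (Fin k) (W (l - 1)) (W l)).card

/-- **avg**.  Proof.  Let `S` be the set on the left.  `∑ v ∈ W, #{p ∈ P | f p = v ∧ B p} ≤ #{p ∈ P | B p} ≤ c1 c2 #P` (the sets are
disjoint, contained in `{p ∈ P | B p}`), so `#S c2 #P ≤ ∑ v ∈ S, #{..} #W ≤ #W c1 c2 #P`.  If `#P = 0` then `S = ∅` (the condition is
`0 < 0`); otherwise divide by `c2 #P`. -/
def S_avg : Prop := ∀ (𝓟 Ω : Type) (P : Finset 𝓟) (f : 𝓟 → Ω) (B : 𝓟 → Prop) (W : Finset Ω) (c1 c2 : ℝ), 0 ≤ c1 → 0 < c2 →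
  ((P.filter B).card : ℝ) ≤ c1 * c2 * P.card →
  ((W.filter fun v => c2 * P.card < ((P.filter fun p => f p = v ∧ B p).card : ℝ) * W.card).card : ℝ) ≤ c1 * W.card

/-- the exceptional labels of `W j`: for some `k` and some slot `i` the pairs of families with the label `v` in the slot `i` are
bad with probability more than `(1/2)^(12 K)` -/
def Exc {X Ω : Type} [Fintype X] [Fintype Ω] (ok : X → Ω → Prop) (L : ℕ) (al : ℕ → ℝ) (W : ℕ → Finset Ω)
    (E : ℕ → ℕ → Finset X) (j : ℕ) : Finset Ω :=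
  (W j).filter fun v =>
    (1 ≤ j ∧ j + 1 ≤ L ∧ ∃ k, k ≤ kap (j + 1) ∧ ∃ i : Fin k,
      (1 / 2 : ℝ) ^ (12 * kap (j + 2)) * (prs (Fin k) (Fin k) (W j) (W (j + 1))).card <
      (((prs (Fin k) (Fin k) (W j) (W (j + 1))).filter fun p =>
        p.1 i = v ∧ TB ok (E (j + 1) k) (al (j + 1)) p.1 p.2).card : ℝ) * (W j).card) ∨
    (2 ≤ j ∧ j ≤ L ∧ ∃ k, k ≤ kap j ∧ ∃ i : Fin k,
      (1 / 2 : ℝ) ^ (12 * kap (j + 1)) * (prs (Fin k) (Fin k) (W (j - 1)) (W j)).card <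
      (((prs (Fin k) (Fin k) (W (j - 1)) (W j)).filter fun p =>
        p.2 i = v ∧ TB ok (E j k) (al j) p.1 p.2).card : ℝ) * (W j).card)

/-- **exc**.  There are few exceptional labels.  Hypothesis of the piece: `S_avg`.
Proof.  For fixed `k ≤ kap (j + 1)` and `i : Fin k` the exceptional `v` of the first kind are at most `(1/2)^(13 K') #(W j)`, `K' = kap (j + 2)`, by
`S_avg` with `c1 = (1/2)^(13 K')`, `c2 = (1/2)^(12 K')` (`1/2^25 = 1/2^13 * 1/2^12`) and the hypothesis at `l = j + 1`; there are at most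
`(kap (j + 1) + 1) kap (j + 1)` pairs `(k, i)`.  In the same way the second kind: at most `(kap j + 1) kap j (1/2)^(13 K) #(W j)`, `K = kap (j + 1)`.
`kap j ≤ K ≤ K'`, `(K + 1) K ≤ 4^K`: the sum is `≤ 2 (1/2)^(11 K) #(W j) ≤ (1/2)^(10 K) #(W j)`.  (Union: `Finset.card_biUnion_le` over
`k ∈ range (kap (j + 1) + 1)` and `i : Fin k`.)  Keep `kap` symbolic. -/
def S_exc : Prop := ∀ (X Ω : Type) [Fintype X] [Fintype Ω] (ok : X → Ω → Prop) (L : ℕ) (al : ℕ → ℝ) (W : ℕ → Finset Ω)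
  (E : ℕ → ℕ → Finset X), (∀ l, 2 ≤ l → l ≤ L → ∀ k, k ≤ kap l →
    (((prs (Fin k) (Fin k) (W (l - 1)) (W l)).filter fun p => TB ok (E l k) (al l) p.1 p.2).card : ℝ) ≤
      (1 / 2) ^ (25 * kap (l + 1)) * (prs (Fin k) (Fin k) (W (l - 1)) (W l)).card) →
  ∀ j, ((Exc ok L al W E j).card : ℝ) ≤ (1 / 2) ^ (10 * kap (j + 1)) * (W j).card

/-- **shr**.  Shrinking the two label sets a little.  Proof.  `#(prs ι ι W W') = #W^k #W'^k`, `k = #ι`.  `#V ≥ (1 - δ) #W`, so `#V^k ≥ (1 - δ)^k #W^k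
≥ (1 - k δ) #W^k ≥ 3/4 #W^k` (Bernoulli `one_add_mul_le_pow`, `δ ≤ 1` or `k = 0`), the same for `V'`, and `9/16 ≥ 1/2`. -/
def S_shr : Prop := ∀ (Ω ι : Type) [Fintype Ω] [Fintype ι] (W W' V V' : Finset Ω) (δ δ' : ℝ), 0 ≤ δ → 0 ≤ δ' →
  Fintype.card ι * δ ≤ 1 / 4 → Fintype.card ι * δ' ≤ 1 / 4 → (1 - δ) * W.card ≤ (V.card : ℝ) →
  (1 - δ') * W'.card ≤ (V'.card : ℝ) → ((prs ι ι W W').card : ℝ) ≤ 2 * (prs ι ι V V').card

/-- **trn**.  Transport along `σ : ι ≃ Fin k`.  Proof.  `(p, q) ↦ (p ∘ σ.symm, q ∘ σ.symm)` is a bijection of `prs ι ι W W'` onto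
`prs (Fin k) (Fin k) W W'`; `AA`, `AAl`, `AAr` do not change (reindex the quantifiers), so `TB` is preserved; the entry
`p i0` becomes the entry with index `σ i0`.  (`Finset.card_bij` or `Finset.card_nbij'`, three times.) -/
def S_trn : Prop := ∀ (X Ω ι : Type) [Fintype X] [Fintype Ω] [Fintype ι] (ok : X → Ω → Prop) (k : ℕ) (σ : ι ≃ Fin k)
  (W W' : Finset Ω) (E0 : Finset X) (al : ℝ),
  (prs ι ι W W').card = (prs (Fin k) (Fin k) W W').card ∧
  ((prs ι ι W W').filter fun p => TB ok E0 al p.1 p.2).card =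
    ((prs (Fin k) (Fin k) W W').filter fun p => TB ok E0 al p.1 p.2).card ∧
  (∀ i0 v, ((prs ι ι W W').filter fun p => p.1 i0 = v ∧ TB ok E0 al p.1 p.2).card =
    ((prs (Fin k) (Fin k) W W').filter fun p => p.1 (σ i0) = v ∧ TB ok E0 al p.1 p.2).card) ∧
  ∀ i0 v, ((prs ι ι W W').filter fun p => p.2 i0 = v ∧ TB ok E0 al p.1 p.2).card =
    ((prs (Fin k) (Fin k) W W').filter fun p => p.2 (σ i0) = v ∧ TB ok E0 al p.1 p.2).card

/-- **fib**.  Slots with prescribed block sizes.  Proof.  `E = Σ j : {j // j ∈ Icc m L}, Fin (f j)`, `bE e = e.1`; the fibre over `j` is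
in bijection with `Fin (f j)`. -/
def S_fib : Prop := ∀ (m L : ℕ) (f : ℕ → ℕ), ∃ (E : Type) (_ : Fintype E) (bE : E → ℕ),
  (∀ j, m ≤ j → j ≤ L → ({e | bE e = j} : Finset E).card = f j) ∧ ∀ e, m ≤ bE e ∧ bE e ≤ L

/-- **cfg**.  The configuration.  Hypotheses of the piece: `S_dual`, `S_blk`, `S_beta`, `S_pos`, `S_sel`, `S_n1`, `S_n2`.
Proof.  `S_sel` with `𝓓 = E → Ω`, `𝓣 = F → X`, `S T = piFinset fun e => lab T (bE e)`, `J = Icc 1 L`, `I = Icc 2 L`,
`A j T : #(lab T j) < 1/4 (1 - 8 θ)^#{s | Rc (bF s) j} #Ω`, `B l D : BadD .. (1/4 (1 - 8 θ)^(kap l + kap (l + 1))) l D`, `c l = (1/2)^(25 kap (l + 1))`,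
`β l = (1/2)^(50 kap (l + 1))`, `δ j = (1/3)^kap (j + 1)`.
`Z = ∑ T, #(S T) = ∑ T, wtl T = ∑ D, wt D > 0`: `#(S T) = ∏ e, #(lab T (bE e)) = wtl T` (`Fintype.card_piFinset`), and `S_dual` with `G = 1`.
A: `S_blk` with the roles of `X` and `Ω`, `E` and `F` exchanged (`Fair.flip`), `l := j`, the related blocks of `j` are `l' = j` and `l' = j + 1`;
`#{e | bE e = j} = kap (j + 1)`.
B: `∑ T, #((S T).filter (B l)) = ∑ D ∈ filter (B l), wt D` by `S_dual` with `G D = if B l D then 1 else 0`; `S_beta` at `l` with `j1 = l`,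
`j2 = l - 1`, `#{e | Rc l (bE e)} = kap l + kap (l + 1)` (the blocks `l - 1` and `l`), `#{s | bF s = l} = 100 kap (l + 1)`, and for `e` in the block
`l - 1` or `l` the vertex slots related to it are in the blocks `l - 1, l` or `l, l + 1`, at most `t = 100 kap (l + 1) + 100 kap (l + 2)`
(blocks outside `2..L` are empty, all block sizes are `≤ 100 kap (· + 1)`, `kap l ≤ kap (l + 2)`); then `S_n1`.
The sum is `< 1` by `S_n2`.  At the end `#{s | Rc (bF s) j} ≤ 100 kap (j + 1) + 100 kap (j + 2)` and `0 ≤ 1 - 8 θ ≤ 1` give the bound of `lab T j`. -/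
def S_cfg : Prop := ∀ (X Ω E F : Type) [Fintype X] [Fintype Ω] [Fintype E] [Fintype F] [Nonempty X] [Nonempty Ω]
  (θ : ℝ) (ok : X → Ω → Prop) (L : ℕ), Fair θ ok → θ ≤ 1 / 10 ^ 19 → ∀ (bE : E → ℕ) (bF : F → ℕ),
  (∀ j, 1 ≤ j → j ≤ L → ({e | bE e = j} : Finset E).card = kap (j + 1)) →
  (∀ j, 2 ≤ j → j ≤ L → ({s | bF s = j} : Finset F).card = 100 * kap (j + 1)) →
  (∀ s, 2 ≤ bF s ∧ bF s ≤ L) →
  ∃ T : F → X, (∀ e, (lab ok Rc bF T (bE e)).Nonempty) ∧
    (∀ j, 1 ≤ j → j ≤ L → 1 / 4 * (1 - 8 * θ) ^ (100 * kap (j + 1) + 100 * kap (j + 2)) * Fintype.card Ω ≤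
      ((lab ok Rc bF T j).card : ℝ)) ∧
    ∀ l, 2 ≤ l → l ≤ L → (((Fintype.piFinset fun e => lab ok Rc bF T (bE e)).filter fun D =>
      BadD ok Rc bE (1 / 4 * (1 - 8 * θ) ^ (kap l + kap (l + 1))) l D).card : ℝ) ≤
        (1 / 2) ^ (25 * kap (l + 1)) * (Fintype.piFinset fun e => lab ok Rc bF T (bE e)).card

end T

end Pool.Agent.Lib.MP_33d9ce_co.Cst
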